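import Pool.Agent.Q72.MX.Stm

/-! Project MX, job LA: zero-free functions of finite order near a puncture. -/

set_option autoImplicit false

namespace Q162.MX

open Filter Topology Polynomial Pool.Agent.Q72.MX

/-- polar part of `Φ / q ^ N` -/
lemma polar (N : ℕ) : ∀ Φ : ℂ → ℂ, AnalyticAt ℂ Φ 0 → ∃ (H : ℂ[X]) (Ψ : ℂ → ℂ), AnalyticAt ℂ Ψ 0 ∧
    ∀ q : ℂ, q ≠ 0 → Φ q / q ^ N = H.eval q⁻¹ + Ψ q := by
  induction N with
  | zero =>
    intro Φ hΦ
    exact ⟨0, Φ, hΦ, fun q _ => by simp⟩
  | succ N ih =>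
    intro Φ hΦ
    obtain ⟨H, Ψ, hΨ, h⟩ := ih Φ hΦ
    obtain ⟨p, hp⟩ := hΨ
    refine ⟨X * H + C (Ψ 0) * X, dslope Ψ 0, ⟨_, hp.has_fpower_series_dslope_fslope⟩, ?_⟩
    intro q hq
    have h1 := h q hq
    rw [pow_succ, ← div_div, h1, dslope_of_ne _ hq, slope_def_field, sub_zero]
    simp only [eval_add, eval_mul, eval_X, eval_C]
    field_simp
    ring

/-- logarithm of a zero free function on a half plane -/
lemma log_half {c : ℝ} {e : ℂ → ℂ} (he : DifferentiableOn ℂ e {w | w.re < c})
    (h0 : ∀ w : ℂ, w.re < c → e w ≠ 0) : ∃ k : ℂ → ℂ,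
      (∀ w : ℂ, w.re < c → HasDerivAt k (deriv e w / e w) w) ∧
      ∀ w : ℂ, w.re < c → Complex.exp (k w) = e w := by
  have hopen : IsOpen {w : ℂ | w.re < c} := isOpen_lt Complex.continuous_re continuous_const
  have hconv : Convex ℝ {w : ℂ | w.re < c} := convex_halfSpace_re_lt c
  have hd : DifferentiableOn ℂ (fun w => deriv e w / e w) {w | w.re < c} :=
    (he.deriv hopen).div he h0
  obtain ⟨k0, hk0⟩ := hconv.exists_forall_hasDerivWithinAt hd
  have hk0' : ∀ w : ℂ, w.re < c → HasDerivAt k0 (deriv e w / e w) w := fun w hw =>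
    (hk0 w hw).hasDerivAt (hopen.mem_nhds hw)
  have hder : ∀ w : ℂ, w.re < c → HasDerivAt (fun w => e w * Complex.exp (-k0 w)) 0 w := by
    intro w hw
    have h1 := (he.differentiableAt (hopen.mem_nhds hw)).hasDerivAt
    have h2 := h1.mul ((hk0' w hw).neg.cexp)
    refine h2.congr_deriv ?_
    have := h0 w hw
    simp only [Pi.neg_apply]
    field_simp
    ring
  set w1 : ℂ := ((c - 1 : ℝ) : ℂ) with hw1
  have hw1c : w1.re < c := by simp [hw1]
  set a : ℂ := e w1 * Complex.exp (-k0 w1) with ha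
  have ha0 : a ≠ 0 := mul_ne_zero (h0 _ hw1c) (Complex.exp_ne_zero _)
  have hconst : ∀ w : ℂ, w.re < c → e w * Complex.exp (-k0 w) = a := by
    intro w hw
    have := hopen.is_const_of_deriv_eq_zero (f := fun w => e w * Complex.exp (-k0 w))
      hconv.isPreconnected (fun z hz => (hder z hz).differentiableAt.differentiableWithinAt)
      (fun z hz => (hder z hz).deriv) hw hw1c
    exact this
  refine ⟨fun w => k0 w + Complex.log a, fun w hw => (hk0' w hw).add_const _, fun w hw => ?_⟩
  rw [Complex.exp_add, Complex.exp_log ha0, ← hconst w hw, Complex.exp_neg]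
  field_simp

theorem la : S_LA := by
  intro f r C M hr hf hf0 hfb
  have hPDo : IsOpen (PD r) := by
    have h1 : PD r = {q : ℂ | q ≠ 0} ∩ {q : ℂ | ‖q‖ < r} := rfl
    rw [h1]
    exact isOpen_ne.inter (isOpen_lt continuous_norm continuous_const)
  set c : ℝ := Real.log r with hc
  have hexpPD : ∀ w : ℂ, w.re < c → Complex.exp w ∈ PD r := by
    intro w hw
    refine ⟨Complex.exp_ne_zero _, ?_⟩
    rw [Complex.norm_exp]
    rwa [← Real.lt_log_iff_exp_lt hr]
  have hUo : IsOpen {w : ℂ | w.re < c} := isOpen_lt Complex.continuous_re continuous_const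
  have hconv : Convex ℝ {w : ℂ | w.re < c} := convex_halfSpace_re_lt c
  set e : ℂ → ℂ := fun w => f (Complex.exp w) with he
  have hed : DifferentiableOn ℂ e {w | w.re < c} := fun w hw =>
    ((hf.differentiableAt (hPDo.mem_nhds (hexpPD w hw))).comp w
      Complex.differentiable_exp.differentiableAt).differentiableWithinAt
  obtain ⟨k, hk1, hk2⟩ := log_half hed fun w hw => hf0 _ (hexpPD w hw)
  -- the period
  have hper : ∀ w : ℂ, e (w + 2 * Real.pi * Complex.I) = e w := by
    intro w
    simp only [he]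
    rw [Complex.exp_periodic]
  have hper' : ∀ w : ℂ, deriv e (w + 2 * Real.pi * Complex.I) = deriv e w := by
    intro w
    rw [← deriv_comp_add_const]
    congr 1
    funext w
    exact hper w
  have hre : ∀ w : ℂ, (w + 2 * Real.pi * Complex.I).re = w.re := by
    intro w
    simp
  set w1 : ℂ := ((c - 1 : ℝ) : ℂ) with hw1
  have hw1c : w1.re < c := by simp [hw1]
  have hdiff : ∀ w : ℂ, w.re < c → HasDerivAt (fun w => k (w + 2 * Real.pi * Complex.I) - k w) 0 w := by
    intro w hw
    have h1 := HasDerivAt.comp_add_const w (2 * Real.pi * Complex.I)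
      (hk1 (w + 2 * Real.pi * Complex.I) (by rw [hre]; exact hw))
    refine (h1.sub (hk1 w hw)).congr_deriv ?_
    rw [hper, hper', sub_self]
  obtain ⟨l, hl⟩ : ∃ l : ℤ, ∀ w : ℂ, w.re < c →
      k (w + 2 * Real.pi * Complex.I) - k w = l * (2 * Real.pi * Complex.I) := by
    have h1 : Complex.exp (k (w1 + 2 * Real.pi * Complex.I) - k w1) = 1 := by
      rw [Complex.exp_sub, hk2 _ (by rw [hre]; exact hw1c), hk2 _ hw1c, hper,
        div_self (hf0 _ (hexpPD _ hw1c))]
    obtain ⟨l, hl⟩ := Complex.exp_eq_one_iff.1 h1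
    refine ⟨l, fun w hw => ?_⟩
    rw [← hl]
    exact hUo.is_const_of_deriv_eq_zero (f := fun w => k (w + 2 * Real.pi * Complex.I) - k w)
      hconv.isPreconnected (fun z hz => (hdiff z hz).differentiableAt.differentiableWithinAt)
      (fun z hz => (hdiff z hz).deriv) hw hw1c
  -- the periodic function
  classical
  set K : ℂ → ℂ := fun w => if w.re < c then k w - l * w else 0 with hK
  have hKin : ∀ w : ℂ, w.re < c → K w = k w - l * w := fun w hw => if_pos hw
  have hKp : ∀ w : ℂ, K (w + 2 * Real.pi * Complex.I) = K w := by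
    intro w
    by_cases hw : w.re < c
    · rw [hKin w hw, hKin _ (by rw [hre]; exact hw)]
      linear_combination hl w hw
    · simp only [hK]
      rw [if_neg hw, if_neg (by rw [hre]; exact hw)]
  have hKd : ∀ w : ℂ, w.re < c → DifferentiableAt ℂ K w := by
    intro w hw
    have h1 : DifferentiableAt ℂ (fun w => k w - l * w) w :=
      (hk1 w hw).differentiableAt.sub (by fun_prop)
    refine h1.congr_of_eventuallyEq ?_
    filter_upwards [hUo.mem_nhds hw] with z hz
    exact hKin z hz
  set Kt : ℂ → ℂ := fun z => K (2 * Real.pi * Complex.I * z) with hKt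
  have hKtp : Function.Periodic Kt (1 : ℝ) := by
    intro z
    simp only [hKt]
    rw [← hKp (2 * Real.pi * Complex.I * z)]
    congr 1
    push_cast
    ring
  set H0 : ℂ → ℂ := Function.Periodic.cuspFunction 1 Kt with hH0
  have h2pi : (2 * Real.pi * Complex.I : ℂ) ≠ 0 := Complex.two_pi_I_ne_zero
  have hq : ∀ w : ℂ, Function.Periodic.qParam 1 (w / (2 * Real.pi * Complex.I)) = Complex.exp w := by
    intro w
    unfold Function.Periodic.qParam
    congr 1
    push_cast
    field_simp
  have hH0e : ∀ w : ℂ, H0 (Complex.exp w) = K w := by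
    intro w
    rw [← hq w, hH0, Function.Periodic.eq_cuspFunction one_ne_zero hKtp]
    simp only [hKt]
    congr 1
    field_simp
  have hH0d : ∀ w : ℂ, w.re < c → DifferentiableAt ℂ H0 (Complex.exp w) := by
    intro w hw
    rw [← hq w]
    refine Function.Periodic.differentiableAt_cuspFunction one_ne_zero hKtp ?_
    have h1 : DifferentiableAt ℂ (fun z : ℂ => 2 * Real.pi * Complex.I * z)
      (w / (2 * Real.pi * Complex.I)) := by fun_prop
    have h2 : 2 * Real.pi * Complex.I * (w / (2 * Real.pi * Complex.I)) = w := by field_simp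
    exact DifferentiableAt.comp (g := K) _ (by rw [h2]; exact hKd w hw) h1
  have hlog : ∀ q ∈ PD r, (Complex.log q).re < c ∧ Complex.exp (Complex.log q) = q := by
    rintro q ⟨hq0, hqr⟩
    refine ⟨?_, Complex.exp_log hq0⟩
    rw [Complex.log_re]
    exact Real.log_lt_log (norm_pos_iff.2 hq0) hqr
  have hfq : ∀ q ∈ PD r, f q = q ^ l * Complex.exp (H0 q) := by
    intro q hqr
    obtain ⟨h1, h2⟩ := hlog q hqr
    have h3 := hk2 _ h1
    have h4 := hH0e (Complex.log q)
    rw [hKin _ h1, h2] at h4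
    have h5 : e (Complex.log q) = f q := by
      simp only [he]
      rw [h2]
    rw [← h5, ← h3, h4, Complex.exp_sub, Complex.exp_int_mul, h2]
    have := zpow_ne_zero l hqr.1
    field_simp
  -- bound of the real part
  set c' : ℝ := min c 0 with hc'
  have hRe : ∀ w : ℂ, w.re < c' → (K w).re ≤ (|C| + |(l : ℝ)|) * Real.exp (-((M + 1 : ℕ) * w.re)) := by
    intro w hw
    have hwc : w.re < c := lt_of_lt_of_le hw (min_le_left _ _)
    have hw0 : w.re < 0 := lt_of_lt_of_le hw (min_le_right _ _)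
    rw [hKin w hwc]
    have h1 : (k w).re = Real.log ‖f (Complex.exp w)‖ := by
      have h2 : ‖f (Complex.exp w)‖ = Real.exp (k w).re := by
        rw [← Complex.norm_exp, hk2 w hwc]
      rw [h2, Real.log_exp]
    have h3 : Real.log ‖f (Complex.exp w)‖ ≤ C * ‖Complex.exp w‖⁻¹ ^ M := by
      rw [Real.log_le_iff_le_exp (norm_pos_iff.2 (hf0 _ (hexpPD w hwc)))]
      exact hfb _ (hexpPD w hwc)
    have h4 : ‖Complex.exp w‖⁻¹ ^ M = Real.exp (-(M * w.re)) := by
      rw [Complex.norm_exp, ← Real.exp_neg, ← Real.exp_nat_mul]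
      congr 1
      ring
    have h5 : (l * w : ℂ).re = l * w.re := by
      simp
    rw [Complex.sub_re, h1, h5]
    have h6 : Real.exp (-(M * w.re)) ≤ Real.exp (-((M + 1 : ℕ) * w.re)) := by
      apply Real.exp_le_exp.2
      push_cast
      linarith
    have h7 : -w.re ≤ Real.exp (-((M + 1 : ℕ) * w.re)) := by
      have a1 : -w.re ≤ Real.exp (-w.re) := by linarith [Real.add_one_le_exp (-w.re)]
      have a2 : Real.exp (-w.re) ≤ Real.exp (-((M + 1 : ℕ) * w.re)) := by
        apply Real.exp_le_exp.2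
        push_cast
        have : (0 : ℝ) ≤ M * (-w.re) := mul_nonneg (Nat.cast_nonneg _) (by linarith)
        linarith
      linarith
    have h8 : C * ‖Complex.exp w‖⁻¹ ^ M ≤ |C| * Real.exp (-((M + 1 : ℕ) * w.re)) := by
      rw [h4]
      exact mul_le_mul (le_abs_self C) h6 (Real.exp_pos _).le (abs_nonneg _)
    have h9 : -((l : ℝ) * w.re) ≤ |(l : ℝ)| * Real.exp (-((M + 1 : ℕ) * w.re)) := by
      calc -((l : ℝ) * w.re) = l * (-w.re) := by ring
        _ ≤ |(l : ℝ)| * (-w.re) := mul_le_mul_of_nonneg_right (le_abs_self _) (by linarith)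
        _ ≤ |(l : ℝ)| * Real.exp (-((M + 1 : ℕ) * w.re)) :=
            mul_le_mul_of_nonneg_left h7 (abs_nonneg _)
    linarith
  set A : ℝ := |C| + |(l : ℝ)| + 1 with hA
  have hA0 : 0 < A := by positivity
  have hRe' : ∀ w : ℂ, w.re < c' → (K w).re ≤ A * Real.exp (-((M + 1 : ℕ) * w.re)) := by
    intro w hw
    refine (hRe w hw).trans (mul_le_mul_of_nonneg_right (by linarith) (Real.exp_pos _).le)
  set x1 : ℝ := c' - 2 with hx1
  -- start: a compact annulus
  obtain ⟨D0, hD0⟩ : ∃ D0 : ℝ, ∀ w : ℂ, x1 - 1 ≤ w.re → w.re ≤ x1 → ‖K w‖ ≤ D0 := by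
    have hcomp : IsCompact ({q : ℂ | Real.exp (x1 - 1) ≤ ‖q‖} ∩ Metric.closedBall 0 (Real.exp x1)) :=
      (isCompact_closedBall (0 : ℂ) (Real.exp x1)).inter_left
        (isClosed_le continuous_const continuous_norm)
    have hsub : ∀ q ∈ ({q : ℂ | Real.exp (x1 - 1) ≤ ‖q‖} ∩ Metric.closedBall 0 (Real.exp x1)),
        q ∈ PD r := by
      rintro q ⟨h1, h2⟩
      have h1' : Real.exp (x1 - 1) ≤ ‖q‖ := h1
      rw [mem_closedBall_zero_iff] at h2
      refine ⟨norm_pos_iff.1 (lt_of_lt_of_le (Real.exp_pos _) h1'), lt_of_le_of_lt h2 ?_⟩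
      rw [← Real.lt_log_iff_exp_lt hr]
      have := min_le_left c 0
      linarith
    obtain ⟨D0, hD0⟩ := hcomp.exists_bound_of_continuousOn (f := H0) (fun q hqq => by
      obtain ⟨h1, h2⟩ := hlog q (hsub q hqq)
      have := (hH0d _ h1).continuousAt
      rw [h2] at this
      exact this.continuousWithinAt)
    refine ⟨D0, fun w hw1 hw2 => ?_⟩
    rw [← hH0e w]
    refine hD0 _ ⟨?_, ?_⟩
    · change Real.exp (x1 - 1) ≤ ‖Complex.exp w‖
      rw [Complex.norm_exp]
      exact Real.exp_le_exp.2 hw1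
    · rw [mem_closedBall_zero_iff, Complex.norm_exp]
      exact Real.exp_le_exp.2 hw2
  set s : ℕ := M + 3 with hs
  set R : ℝ := Real.exp s with hR
  have hR4 : 4 ≤ R := by
    have h1 : Real.exp 3 ≤ R := by
      rw [hR]
      apply Real.exp_le_exp.2
      rw [hs]
      push_cast
      linarith [Nat.cast_nonneg (α := ℝ) M]
    have h2 : (3 : ℝ) + 1 ≤ Real.exp 3 := Real.add_one_le_exp 3
    linarith
  set D : ℝ := max D0 (2 * A * Real.exp (-((M + 1 : ℕ) * (x1 - 3 / 2)))) with hD
  have hD1 : D0 ≤ D := le_max_left _ _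
  have hD2 : 2 * A * Real.exp (-((M + 1 : ℕ) * (x1 - 3 / 2))) ≤ D := le_max_right _ _
  have hDpos : 0 < D := lt_of_lt_of_le (by positivity) hD2
  have hgrow : ∀ n : ℕ, ∀ w : ℂ, x1 - (n + 1) / 2 ≤ w.re → w.re ≤ x1 → ‖K w‖ ≤ D * R ^ n := by
    intro n
    induction n with
    | zero =>
      intro w h1 h2
      rw [pow_zero, mul_one]
      refine (hD0 w ?_ h2).trans hD1
      push_cast at h1
      linarith
    | succ n ih =>
      intro w h1 h2
      by_cases h3 : x1 - (n + 1) / 2 ≤ w.re
      · refine (ih w h3 h2).trans ?_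
        rw [pow_succ]
        have : 0 ≤ D * R ^ n := by positivity
        nlinarith
      · push Not at h3
        set w' : ℂ := w + ((1 / 2 : ℝ) : ℂ) with hw'
        have hw're : w'.re = w.re + 1 / 2 := by
          rw [hw', Complex.add_re, Complex.ofReal_re]
        have h4 := ih w' (by rw [hw're]; push_cast at h1; linarith) (by
          rw [hw're]
          have : (0 : ℝ) ≤ n := Nat.cast_nonneg n
          linarith)
        have hball : ∀ ζ ∈ Metric.ball (0 : ℂ) 1, (w' + ζ).re < c' ∧ w'.re - 1 < (w' + ζ).re := by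
          intro ζ hζ
          rw [mem_ball_zero_iff] at hζ
          have h5 := (Complex.abs_re_le_norm ζ).trans_lt hζ
          rw [abs_lt] at h5
          rw [Complex.add_re]
          refine ⟨?_, by linarith [h5.1]⟩
          rw [hw're]
          have : (0 : ℝ) ≤ n := Nat.cast_nonneg n
          linarith [h5.2]
        have hBC := Complex.borelCaratheodory (f := fun ζ => K (w' + ζ)) (R := 1)
          (M := A * Real.exp (-((M + 1 : ℕ) * (w'.re - 1)))) (z := ((-(1 / 2) : ℝ) : ℂ))
          (by positivity)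
          (fun ζ hζ => by
            have h6 := hKd (w' + ζ) ((hball ζ hζ).1.trans_le (min_le_left _ _))
            exact (DifferentiableAt.comp (g := K) ζ h6 (by fun_prop)).differentiableWithinAt)
          (fun ζ hζ => by
            refine (hRe' (w' + ζ) (hball ζ hζ).1).trans ?_
            refine mul_le_mul_of_nonneg_left ?_ hA0.le
            apply Real.exp_le_exp.2
            have h7 := (hball ζ hζ).2
            have h8 : (0 : ℝ) ≤ ((M + 1 : ℕ) : ℝ) := Nat.cast_nonneg _
            nlinarith)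
          one_pos (by
            rw [mem_ball_zero_iff, Complex.norm_real, Real.norm_eq_abs]
            norm_num)
        have hz : ‖((-(1 / 2) : ℝ) : ℂ)‖ = 1 / 2 := by
          rw [Complex.norm_real, Real.norm_eq_abs]
          norm_num
        have hww : w' + ((-(1 / 2) : ℝ) : ℂ) = w := by
          rw [hw']
          push_cast
          ring
        simp only [add_zero] at hBC
        rw [hz, hww] at hBC
        have h9 : A * Real.exp (-((M + 1 : ℕ) * (w'.re - 1))) * 2 ≤ D * R ^ n := by
          have h10 : Real.exp (-((M + 1 : ℕ) * (w'.re - 1))) ≤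
              Real.exp (-((M + 1 : ℕ) * (x1 - 3 / 2))) * R ^ n := by
            rw [hR, ← Real.exp_nat_mul, ← Real.exp_add]
            apply Real.exp_le_exp.2
            rw [hw're, hs]
            push_cast at h1 ⊢
            have h11 : (0 : ℝ) ≤ M := Nat.cast_nonneg _
            have h12 : (0 : ℝ) ≤ n := Nat.cast_nonneg _
            nlinarith [mul_nonneg h11 h12]
          calc A * Real.exp (-((M + 1 : ℕ) * (w'.re - 1))) * 2
              ≤ A * (Real.exp (-((M + 1 : ℕ) * (x1 - 3 / 2))) * R ^ n) * 2 := by gcongr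
            _ = (2 * A * Real.exp (-((M + 1 : ℕ) * (x1 - 3 / 2)))) * R ^ n := by ring
            _ ≤ D * R ^ n := by gcongr
        have h13 : ‖K w‖ ≤ D * R ^ n + 3 * (D * R ^ n) := by
          have e1 : 2 * (A * Real.exp (-((M + 1 : ℕ) * (w'.re - 1)))) * (1 / 2) / (1 - 1 / 2) +
              ‖K w'‖ * (1 + 1 / 2) / (1 - 1 / 2) =
              A * Real.exp (-((M + 1 : ℕ) * (w'.re - 1))) * 2 + 3 * ‖K w'‖ := by ring
          rw [e1] at hBC
          linarith
        refine h13.trans ?_
        rw [pow_succ]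
        have : 0 ≤ D * R ^ n := by positivity
        nlinarith
  -- bound of H0
  have hH0b : ∀ q : ℂ, q ≠ 0 → ‖q‖ < Real.exp x1 →
      ‖q ^ (2 * s) * H0 q‖ ≤ D * Real.exp (s * (2 * x1 + 1)) := by
    intro q hq0 hqx
    have hlr : (Complex.log q).re = Real.log ‖q‖ := Complex.log_re q
    have hlx : (Complex.log q).re < x1 := by
      rw [hlr, Real.log_lt_iff_lt_exp (norm_pos_iff.2 hq0)]
      exact hqx
    have h1 := hH0e (Complex.log q)
    rw [Complex.exp_log hq0] at h1
    set x : ℝ := (Complex.log q).re with hx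
    set n : ℕ := ⌈2 * (x1 - x)⌉₊ with hn
    have hn1 : 2 * (x1 - x) ≤ n := Nat.le_ceil _
    have hn2 : (n : ℝ) < 2 * (x1 - x) + 1 := Nat.ceil_lt_add_one (by linarith)
    have h2 := hgrow n (Complex.log q) (by linarith) hlx.le
    rw [norm_mul, h1]
    have h3 : ‖q ^ (2 * s)‖ = Real.exp (2 * s * x) := by
      rw [norm_pow]
      have : ‖q‖ = Real.exp x := by
        rw [hlr, Real.exp_log (norm_pos_iff.2 hq0)]
      rw [this, ← Real.exp_nat_mul]
      push_cast
      rfl
    rw [h3]
    have h4 : R ^ n ≤ Real.exp (s * (2 * (x1 - x) + 1)) := by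
      rw [hR, ← Real.exp_nat_mul]
      apply Real.exp_le_exp.2
      have : (0 : ℝ) ≤ s := Nat.cast_nonneg _
      nlinarith
    calc Real.exp (2 * s * x) * ‖K (Complex.log q)‖
        ≤ Real.exp (2 * s * x) * (D * Real.exp (s * (2 * (x1 - x) + 1))) := by
          gcongr
          exact h2.trans (by gcongr)
      _ = D * (Real.exp (2 * s * x) * Real.exp (s * (2 * (x1 - x) + 1))) := by ring
      _ = D * Real.exp (s * (2 * x1 + 1)) := by
          rw [← Real.exp_add]
          congr 2
          ring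
  set N : ℕ := 2 * s + 1 with hN
  set Φ : ℂ → ℂ := fun q => q ^ N * H0 q with hΦ
  have hmin : 0 < min r (Real.exp x1) := lt_min hr (Real.exp_pos _)
  have hΦa : AnalyticAt ℂ Φ 0 := by
    refine Complex.analyticAt_of_differentiable_on_punctured_nhds_of_continuousAt ?_ ?_
    · rw [eventually_nhdsWithin_iff]
      filter_upwards [Metric.ball_mem_nhds (0 : ℂ) hr] with q hqr hq0
      rw [mem_ball_zero_iff] at hqr
      have hq0' : q ≠ 0 := hq0
      obtain ⟨h1, h2⟩ := hlog q ⟨hq0', hqr⟩
      have h3 := hH0d _ h1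
      rw [h2] at h3
      exact (differentiableAt_id.pow N).mul h3
    · have h0 : Φ 0 = 0 := by simp [hΦ, hN]
      rw [Metric.continuousAt_iff]
      intro ε hε
      rw [h0]
      set B : ℝ := D * Real.exp (s * (2 * x1 + 1)) with hB
      have hB0 : 0 < B := by positivity
      refine ⟨min (Real.exp x1) (ε / B), lt_min (Real.exp_pos _) (by positivity), ?_⟩
      intro q hqd
      rw [dist_zero_right] at hqd ⊢
      rcases eq_or_ne q 0 with rfl | hq0
      · rw [h0, norm_zero]
        exact hε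
      · have h1 := hH0b q hq0 (hqd.trans_le (min_le_left _ _))
        have h2 : Φ q = q * (q ^ (2 * s) * H0 q) := by
          simp only [hΦ, hN]
          ring
        rw [h2, norm_mul]
        have h3 := hqd.trans_le (min_le_right _ _)
        rw [lt_div_iff₀ hB0] at h3
        calc ‖q‖ * ‖q ^ (2 * s) * H0 q‖ ≤ ‖q‖ * B := by gcongr
          _ < ε := h3
  obtain ⟨H, Ψ, hΨ, hHΨ⟩ := polar N Φ hΦa
  refine ⟨l, H, fun q => Complex.exp (Ψ q), hΨ.cexp, Complex.exp_ne_zero _, ?_⟩
  rw [eventually_nhdsWithin_iff]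
  filter_upwards [Metric.ball_mem_nhds (0 : ℂ) hr] with q hqr hq0
  rw [mem_ball_zero_iff] at hqr
  have hq0' : q ≠ 0 := hq0
  rw [hfq q ⟨hq0', hqr⟩]
  have h1 := hHΨ q hq0'
  have h2 : Φ q / q ^ N = H0 q := by
    simp only [hΦ]
    have := pow_ne_zero N hq0'
    field_simp
  rw [h2] at h1
  rw [h1, Complex.exp_add]
  ring

end Q162.MX
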