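import Pool.Agent.Q72.MX.Stm

/-! Project MX, job LB: directions of growth of polynomials. -/

set_option autoImplicit false

namespace Q162.MX

open Filter Topology Polynomial Pool.Agent.Q72.MX

lemma Sec_mono {φ ρ0 η ρ0' η' : ℝ} (h1 : ρ0 ≤ ρ0') (h2 : η' ≤ η) : Sec φ ρ0' η' ⊆ Sec φ ρ0 η := by
  rintro T ⟨a, b⟩
  refine ⟨h1.trans a, b.trans (mul_le_mul_of_nonneg_right h2 (norm_nonneg _))⟩

/-- a polynomial is bounded by the power of its degree -/
lemma poly_bound (p : ℂ[X]) {n : ℕ} (hn : p.natDegree ≤ n) : ∃ S : ℝ, 0 ≤ S ∧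
    ∀ T : ℂ, 1 ≤ ‖T‖ → ‖p.eval T‖ ≤ S * ‖T‖ ^ n := by
  refine ⟨∑ i ∈ Finset.range (p.natDegree + 1), ‖p.coeff i‖,
    Finset.sum_nonneg fun _ _ => norm_nonneg _, fun T hT => ?_⟩
  rw [eval_eq_sum_range, Finset.sum_mul]
  refine (norm_sum_le _ _).trans (Finset.sum_le_sum fun i hi => ?_)
  rw [norm_mul, norm_pow]
  refine mul_le_mul_of_nonneg_left ?_ (norm_nonneg _)
  refine pow_le_pow_right₀ hT ?_
  have := Finset.mem_range_succ_iff.1 hi
  omega

/-- growth of one polynomial in one direction -/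
lemma one_dir {u : ℂ[X]} (hu : 1 ≤ u.natDegree) {φ : ℝ}
    (h : 0 < (u.leadingCoeff * Complex.exp (φ * Complex.I) ^ u.natDegree).re) :
    ∃ c ρ0 η : ℝ, 0 < c ∧ 0 < ρ0 ∧ 0 < η ∧ ∀ T ∈ Sec φ ρ0 η, c * ‖T‖ ≤ (u.eval T).re := by
  obtain ⟨d, hd⟩ : ∃ d, u.natDegree = d + 1 := ⟨u.natDegree - 1, by omega⟩
  set a := u.leadingCoeff with ha
  set e := Complex.exp (φ * Complex.I) with he
  set κ := (a * e ^ u.natDegree).re / 2 with hκ
  have hκ0 : 0 < κ := by positivity
  have hcont : ContinuousAt (fun x : ℂ => (a * x ^ u.natDegree).re) e := by fun_prop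
  obtain ⟨η, hη, hηb⟩ := Metric.continuousAt_iff.1 hcont κ hκ0
  obtain ⟨S, hS0, hS⟩ := poly_bound u.eraseLead (n := d) (by
    have := u.eraseLead_natDegree_le
    omega)
  refine ⟨κ / 2, max 1 (2 * S / κ), η / 2, by positivity, lt_max_of_lt_left one_pos,
    by positivity, ?_⟩
  rintro T ⟨hT1, hT2⟩
  have hT : 1 ≤ ‖T‖ := (le_max_left _ _).trans hT1
  have hT' : 2 * S / κ ≤ ‖T‖ := (le_max_right _ _).trans hT1
  have hT0 : 0 < ‖T‖ := by linarith
  have hTc : (‖T‖ : ℂ) ≠ 0 := by exact_mod_cast hT0.ne'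
  set x : ℂ := T / ‖T‖ with hx
  have hTx : T = (‖T‖ : ℂ) * x := by
    rw [hx]
    field_simp
  have hdist : dist x e < η := by
    rw [dist_eq_norm]
    have h1 : x - e = (T - (‖T‖ : ℂ) * e) / ‖T‖ := by
      rw [hx]
      field_simp
    rw [h1, norm_div, Complex.norm_real, Real.norm_eq_abs, abs_of_pos hT0, div_lt_iff₀ hT0]
    refine lt_of_le_of_lt hT2 ?_
    nlinarith
  have h2 := hηb hdist
  rw [Real.dist_eq, abs_lt] at h2
  have h3 : κ ≤ (a * x ^ u.natDegree).re := by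
    have : (a * e ^ u.natDegree).re = 2 * κ := by rw [hκ]; ring
    linarith [h2.1]
  have h4 : u.eval T = u.eraseLead.eval T + a * T ^ u.natDegree := by
    conv_lhs => rw [← u.eraseLead_add_C_mul_X_pow]
    rw [eval_add, eval_mul, eval_C, eval_pow, eval_X]
  have h5 : (a * T ^ u.natDegree).re = ‖T‖ ^ (d + 1) * (a * x ^ u.natDegree).re := by
    conv_lhs => rw [hTx]
    rw [mul_pow, ← hd, show a * ((‖T‖ : ℂ) ^ u.natDegree * x ^ u.natDegree) =
      ((‖T‖ ^ u.natDegree : ℝ) : ℂ) * (a * x ^ u.natDegree) by push_cast; ring,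
      Complex.re_ofReal_mul]
  have h6 : -(S * ‖T‖ ^ d) ≤ (u.eraseLead.eval T).re := by
    have := (Complex.abs_re_le_norm (u.eraseLead.eval T)).trans (hS T hT)
    rw [abs_le] at this
    exact this.1
  rw [h4, Complex.add_re, h5]
  have h7 : ‖T‖ ^ (d + 1) * κ ≤ ‖T‖ ^ (d + 1) * (a * x ^ u.natDegree).re :=
    mul_le_mul_of_nonneg_left h3 (by positivity)
  have h8 : 2 * S ≤ κ * ‖T‖ := by
    rw [div_le_iff₀ hκ0] at hT'
    linarith
  have h9 : 1 ≤ ‖T‖ ^ d := one_le_pow₀ hT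
  have h10 : κ / 2 * ‖T‖ ≤ ‖T‖ ^ d * (κ / 2 * ‖T‖) := le_mul_of_one_le_left (by positivity) h9
  have h11 : S * ‖T‖ ^ d ≤ κ * ‖T‖ / 2 * ‖T‖ ^ d :=
    mul_le_mul_of_nonneg_right (by linarith) (by positivity)
  have h12 : ‖T‖ ^ (d + 1) * κ = ‖T‖ ^ d * (κ * ‖T‖) := by rw [pow_succ]; ring
  nlinarith

lemma re_exp_zero (a : ℂ) (d : ℕ) (φ : ℝ) :
    (a * Complex.exp (φ * Complex.I) ^ d).re = ‖a‖ * Real.cos (d * φ + a.arg) := by
  have h1 : a * Complex.exp (φ * Complex.I) ^ d =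
      ((‖a‖ : ℝ) : ℂ) * Complex.exp (((d * φ + a.arg : ℝ) : ℂ) * Complex.I) := by
    conv_lhs => rw [← Complex.norm_mul_exp_arg_mul_I a]
    rw [← Complex.exp_nat_mul, mul_assoc, ← Complex.exp_add]
    congr 2
    push_cast
    ring
  rw [h1, Complex.re_ofReal_mul, Complex.exp_ofReal_mul_I_re]

/-- the bad directions are countable -/
lemma bad_countable {a : ℂ} (ha : a ≠ 0) {d : ℕ} (hd : 1 ≤ d) :
    {φ : ℝ | (a * Complex.exp (φ * Complex.I) ^ d).re = 0}.Countable := by
  refine (Set.countable_range fun k : ℤ => ((2 * k + 1) * Real.pi / 2 - a.arg) / d).mono ?_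
  intro φ hφ
  have hφ' : (a * Complex.exp (φ * Complex.I) ^ d).re = 0 := hφ
  rw [re_exp_zero] at hφ'
  have h1 := (mul_eq_zero.1 hφ').resolve_left (norm_ne_zero_iff.2 ha)
  obtain ⟨k, hk⟩ := Real.cos_eq_zero_iff.1 h1
  refine ⟨k, ?_⟩
  have hd' : (d : ℝ) ≠ 0 := by
    have : 0 < d := by omega
    exact_mod_cast this.ne'
  simp only
  rw [div_eq_iff hd', ← hk]
  ring

theorem lb : S_LB := by
  intro W u0 hW hu0
  classical
  have hlead : ∀ u : ℂ[X], 1 ≤ u.natDegree → u.leadingCoeff ≠ 0 := by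
    intro u hu
    rw [leadingCoeff_ne_zero]
    rintro rfl
    simp at hu
  -- the direction
  obtain ⟨φ, hφ0, hφ⟩ : ∃ φ : ℝ,
      0 < (u0.leadingCoeff * Complex.exp (φ * Complex.I) ^ u0.natDegree).re ∧
      ∀ u ∈ W, (u.leadingCoeff * Complex.exp (φ * Complex.I) ^ u.natDegree).re ≠ 0 := by
    have hc : (⋃ u ∈ W, {φ : ℝ | (u.leadingCoeff *
        Complex.exp (φ * Complex.I) ^ u.natDegree).re = 0}).Countable := by
      refine Set.Countable.biUnion W.countable_toSet fun u hu => ?_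
      exact bad_countable (hlead u (hW u hu)) (hW u hu)
    have hdense := hc.dense_compl ℝ
    have hopen : IsOpen {φ : ℝ |
        0 < (u0.leadingCoeff * Complex.exp (φ * Complex.I) ^ u0.natDegree).re} :=
      isOpen_lt continuous_const (by fun_prop)
    have hne : {φ : ℝ |
        0 < (u0.leadingCoeff * Complex.exp (φ * Complex.I) ^ u0.natDegree).re}.Nonempty := by
      refine ⟨-u0.leadingCoeff.arg / u0.natDegree, ?_⟩
      change 0 < (u0.leadingCoeff *
        Complex.exp ((-u0.leadingCoeff.arg / u0.natDegree : ℝ) * Complex.I) ^ u0.natDegree).re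
      rw [re_exp_zero]
      have hd' : (u0.natDegree : ℝ) ≠ 0 := by
        have : 0 < u0.natDegree := by omega
        exact_mod_cast this.ne'
      have h1 : (u0.natDegree : ℝ) * (-u0.leadingCoeff.arg / u0.natDegree) +
          u0.leadingCoeff.arg = 0 := by
        field_simp
        ring
      rw [h1, Real.cos_zero, mul_one]
      exact norm_pos_iff.2 (hlead u0 hu0)
    obtain ⟨φ, h1, h2⟩ := hdense.inter_open_nonempty _ hopen hne
    refine ⟨φ, h1, fun u hu h0 => h2 ?_⟩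
    simp only [Set.mem_iUnion]
    exact ⟨u, hu, h0⟩
  obtain ⟨c0, ρ0, η0, hc0, hρ0, hη0, h0⟩ := one_dir hu0 hφ0
  -- all the polynomials of `W`
  have hall : ∀ W' : Finset ℂ[X], W' ⊆ W → ∃ (c ρ η : ℝ), 0 < c ∧ 0 < ρ ∧ 0 < η ∧
      ∀ u ∈ W', (∀ T ∈ Sec φ ρ η, c * ‖T‖ ≤ (u.eval T).re) ∨
        (∀ T ∈ Sec φ ρ η, (u.eval T).re ≤ -(c * ‖T‖)) := by
    intro W'
    induction W' using Finset.induction_on with
    | empty =>
      intro _
      exact ⟨1, 1, 1, one_pos, one_pos, one_pos, fun u hu => absurd hu (Finset.notMem_empty u)⟩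
    | insert v W' _ ih =>
      intro hsub
      obtain ⟨c, ρ, η, hc, hρ, hη, h⟩ := ih fun u hu => hsub (Finset.mem_insert_of_mem hu)
      have hv := hsub (Finset.mem_insert_self v W')
      obtain ⟨c', ρ', η', hc', hρ', hη', h'⟩ : ∃ (c ρ η : ℝ), 0 < c ∧ 0 < ρ ∧ 0 < η ∧
          ((∀ T ∈ Sec φ ρ η, c * ‖T‖ ≤ (v.eval T).re) ∨
          (∀ T ∈ Sec φ ρ η, (v.eval T).re ≤ -(c * ‖T‖))) := by
        rcases lt_or_gt_of_ne (hφ v hv) with h1 | h1
        · obtain ⟨c', ρ', η', hc', hρ', hη', h'⟩ := one_dir (u := -v) (φ := φ)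
            (by rw [natDegree_neg]; exact hW v hv)
            (by
              rw [natDegree_neg, leadingCoeff_neg, neg_mul, Complex.neg_re]
              linarith)
          refine ⟨c', ρ', η', hc', hρ', hη', Or.inr fun T hT => ?_⟩
          have := h' T hT
          rw [eval_neg, Complex.neg_re] at this
          linarith
        · obtain ⟨c', ρ', η', hc', hρ', hη', h'⟩ := one_dir (hW v hv) h1
          exact ⟨c', ρ', η', hc', hρ', hη', Or.inl h'⟩
      refine ⟨min c c', max ρ ρ', min η η', lt_min hc hc', lt_max_of_lt_left hρ, lt_min hη hη', ?_⟩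
      have hs1 : Sec φ (max ρ ρ') (min η η') ⊆ Sec φ ρ η :=
        Sec_mono (le_max_left _ _) (min_le_left _ _)
      have hs2 : Sec φ (max ρ ρ') (min η η') ⊆ Sec φ ρ' η' :=
        Sec_mono (le_max_right _ _) (min_le_right _ _)
      intro u hu
      rcases Finset.mem_insert.1 hu with rfl | hu
      · rcases h' with h' | h'
        · left
          intro T hT
          exact (mul_le_mul_of_nonneg_right (min_le_right _ _) (norm_nonneg _)).trans (h' T (hs2 hT))
        · right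
          intro T hT
          refine (h' T (hs2 hT)).trans (neg_le_neg ?_)
          exact mul_le_mul_of_nonneg_right (min_le_right _ _) (norm_nonneg _)
      · rcases h u hu with h' | h'
        · left
          intro T hT
          exact (mul_le_mul_of_nonneg_right (min_le_left _ _) (norm_nonneg _)).trans (h' T (hs1 hT))
        · right
          intro T hT
          refine (h' T (hs1 hT)).trans (neg_le_neg ?_)
          exact mul_le_mul_of_nonneg_right (min_le_left _ _) (norm_nonneg _)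
  obtain ⟨c1, ρ1, η1, hc1, hρ1, hη1, h1⟩ := hall W (Finset.Subset.refl W)
  refine ⟨φ, min c0 c1, max ρ0 ρ1, min η0 η1, lt_min hc0 hc1, lt_max_of_lt_left hρ0,
    lt_min hη0 hη1, ?_, ?_⟩
  · intro T hT
    refine (mul_le_mul_of_nonneg_right (min_le_left _ _) (norm_nonneg _)).trans
      (h0 T (Sec_mono (le_max_left _ _) (min_le_left _ _) hT))
  · intro u hu
    have hs : Sec φ (max ρ0 ρ1) (min η0 η1) ⊆ Sec φ ρ1 η1 :=
      Sec_mono (le_max_right _ _) (min_le_right _ _)
    rcases h1 u hu with h' | h'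
    · left
      intro T hT
      exact (mul_le_mul_of_nonneg_right (min_le_right _ _) (norm_nonneg _)).trans (h' T (hs hT))
    · right
      intro T hT
      refine (h' T (hs hT)).trans (neg_le_neg ?_)
      exact mul_le_mul_of_nonneg_right (min_le_right _ _) (norm_nonneg _)

end Q162.MX
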