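import Pool.Agent.Q72.MX.Stm

/-! Project MX, job XX: zeros of the exponential sum, from the directions of growth (job LB). -/

set_option autoImplicit false

namespace Q162.MX

open Filter Topology Polynomial Pool.Agent.Q72.MX Pool.Agent.W996.EC

/-! ### the filter -/

/-- `ρ → ∞` along `l`, `ζ` in the closed disc of radius `Z` -/
def FF (l : Filter ℝ) (Z : ℝ) : Filter (ℝ × ℂ) := l ×ˢ 𝓟 (Metric.closedBall 0 Z)

/-- the displacement -/
noncomputable def dz (δ : ℕ) (x : ℝ × ℂ) : ℂ := x.2 / (x.1 : ℂ) ^ δ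

/-- the base point -/
noncomputable def W0 (φ ρ : ℝ) : ℂ := -(Real.log ρ : ℂ) - φ * Complex.I

/-- the point -/
noncomputable def ww (φ : ℝ) (δ : ℕ) (x : ℝ × ℂ) : ℂ := W0 φ x.1 + dz δ x

section filt

variable {l : Filter ℝ} (hl : l ≤ atTop) {Z φ : ℝ} {δ : ℕ}
include hl

lemma fst_top : Tendsto (fun x : ℝ × ℂ => x.1) (FF l Z) atTop :=
  tendsto_fst.mono_right hl

lemma of_fst {P : ℝ → Prop} (h : ∀ᶠ ρ in atTop, P ρ) : ∀ᶠ x in FF l Z, P x.1 :=
  (fst_top hl).eventually h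

lemma tend_fst {β : Type*} {f : ℝ → β} {m : Filter β} (h : Tendsto f atTop m) :
    Tendsto (fun x : ℝ × ℂ => f x.1) (FF l Z) m := h.comp (fst_top hl)

omit hl in
lemma ev_snd : ∀ᶠ x in FF l Z, ‖x.2‖ ≤ Z := by
  unfold FF
  rw [eventually_prod_principal_iff]
  exact Eventually.of_forall fun _ y hy => mem_closedBall_zero_iff.1 hy

omit hl in
/-- small times bounded -/
lemma small_mul {f g : ℝ × ℂ → ℂ} {C : ℝ} (hf : Tendsto f (FF l Z) (𝓝 0))
    (hg : ∀ᶠ x in FF l Z, ‖g x‖ ≤ C) : Tendsto (fun x => f x * g x) (FF l Z) (𝓝 0) := by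
  rw [tendsto_zero_iff_norm_tendsto_zero]
  have h1 : Tendsto (fun x => ‖f x‖ * |C|) (FF l Z) (𝓝 0) := by
    have := (tendsto_zero_iff_norm_tendsto_zero.1 hf).mul_const |C|
    rwa [zero_mul] at this
  refine tendsto_of_tendsto_of_tendsto_of_le_of_le' tendsto_const_nhds h1
    (Eventually.of_forall fun _ => norm_nonneg _) ?_
  filter_upwards [hg] with x hx
  rw [norm_mul]
  exact mul_le_mul_of_nonneg_left (hx.trans (le_abs_self C)) (norm_nonneg _)

lemma inv_pow_tend {n : ℕ} (hn : 1 ≤ n) :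
    Tendsto (fun x : ℝ × ℂ => ((x.1 : ℂ) ^ n)⁻¹) (FF l Z) (𝓝 0) := by
  rw [tendsto_zero_iff_norm_tendsto_zero]
  have h1 : Tendsto (fun ρ : ℝ => (ρ ^ n)⁻¹) atTop (𝓝 0) :=
    tendsto_inv_atTop_zero.comp (tendsto_pow_atTop (by omega))
  refine (tend_fst hl h1).congr' ?_
  filter_upwards [of_fst (Z := Z) hl (eventually_gt_atTop 0)] with x hx
  rw [norm_inv, norm_pow, Complex.norm_real, Real.norm_eq_abs, abs_of_pos hx]

lemma dz_tend (hδ : 1 ≤ δ) : Tendsto (dz δ) (FF l Z) (𝓝 0) := by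
  have := small_mul (inv_pow_tend (Z := Z) hl hδ) (g := fun x => x.2) (C := Z) ev_snd
  refine this.congr fun x => ?_
  unfold dz
  rw [div_eq_mul_inv, mul_comm]

lemma s_tend (hδ : 1 ≤ δ) : Tendsto (fun x => Complex.exp (-dz δ x)) (FF l Z) (𝓝 1) := by
  have h1 := (dz_tend (Z := Z) hl hδ).neg
  rw [neg_zero] at h1
  have h2 := (Complex.continuous_exp.tendsto 0).comp h1
  rwa [Complex.exp_zero] at h2

lemma pow_tend (hδ : 1 ≤ δ) (j : ℕ) : Tendsto (fun x : ℝ × ℂ =>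
    (x.1 : ℂ) ^ δ * (Complex.exp (-dz δ x) ^ j - 1) + j * x.2) (FF l Z) (𝓝 0) := by
  have h1 : Tendsto (fun x => -(j * dz δ x)) (FF l Z) (𝓝 0) := by
    have := ((dz_tend (Z := Z) hl hδ).const_mul (j : ℂ)).neg
    rwa [mul_zero, neg_zero] at this
  have h2 := small_mul h1 (g := fun x => (j : ℂ) * x.2) (C := j * Z) (by
    filter_upwards [ev_snd (l := l) (Z := Z)] with x hx
    rw [norm_mul, Complex.norm_natCast]
    exact mul_le_mul_of_nonneg_left hx (Nat.cast_nonneg _))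
  rw [tendsto_zero_iff_norm_tendsto_zero] at h2 ⊢
  refine tendsto_of_tendsto_of_tendsto_of_le_of_le' tendsto_const_nhds h2
    (Eventually.of_forall fun _ => norm_nonneg _) ?_
  have h3 : ∀ᶠ x in FF l Z, ‖-(j * dz δ x)‖ ≤ 1 := by
    filter_upwards [(tendsto_zero_iff_norm_tendsto_zero.1 h1).eventually (eventually_le_nhds one_pos)]
      with x hx
    exact hx
  filter_upwards [h3, of_fst (Z := Z) hl (eventually_gt_atTop 0)] with x hx hx0
  have hx0' : ((x.1 : ℂ) ^ δ) ≠ 0 := pow_ne_zero _ (by exact_mod_cast hx0.ne')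
  have h4 := Complex.norm_exp_sub_one_sub_id_le hx
  have h5 : (x.1 : ℂ) ^ δ * dz δ x = x.2 := by
    unfold dz
    field_simp
  have h6 : (x.1 : ℂ) ^ δ * (Complex.exp (-dz δ x) ^ j - 1) + j * x.2 =
      (x.1 : ℂ) ^ δ * (Complex.exp (-(j * dz δ x)) - 1 - -(j * dz δ x)) := by
    rw [← Complex.exp_nat_mul, show (j : ℂ) * -dz δ x = -(j * dz δ x) by ring]
    linear_combination (-(j : ℂ)) * h5
  have h7 : (j : ℂ) * x.2 = (x.1 : ℂ) ^ δ * (j * dz δ x) := by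
    linear_combination (-(j : ℂ)) * h5
  rw [h6, norm_mul, h7, norm_mul, norm_mul]
  rw [norm_neg] at h4 ⊢
  calc ‖(x.1 : ℂ) ^ δ‖ * ‖Complex.exp (-(j * dz δ x)) - 1 - -(j * dz δ x)‖
      ≤ ‖(x.1 : ℂ) ^ δ‖ * ‖(j : ℂ) * dz δ x‖ ^ 2 := by gcongr
    _ = ‖(j : ℂ) * dz δ x‖ * (‖(x.1 : ℂ) ^ δ‖ * ‖(j : ℂ) * dz δ x‖) := by ring

lemma pow_tend_lt (hδ : 1 ≤ δ) {j : ℕ} (hj : j < δ) : Tendsto (fun x : ℝ × ℂ =>
    (x.1 : ℂ) ^ j * (Complex.exp (-dz δ x) ^ j - 1)) (FF l Z) (𝓝 0) := by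
  have h1 := inv_pow_tend (Z := Z) hl (n := δ - j) (by omega)
  have h2 := h1.mul (pow_tend (Z := Z) hl hδ j)
  rw [mul_zero] at h2
  have h3 := small_mul h1 (g := fun x => (j : ℂ) * x.2) (C := j * Z) (by
    filter_upwards [ev_snd (l := l) (Z := Z)] with x hx
    rw [norm_mul, Complex.norm_natCast]
    exact mul_le_mul_of_nonneg_left hx (Nat.cast_nonneg _))
  have h4 := h2.sub h3
  rw [sub_zero] at h4
  refine h4.congr' ?_
  filter_upwards [of_fst (Z := Z) hl (eventually_gt_atTop 0)] with x hx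
  have hx0 : (x.1 : ℂ) ≠ 0 := by exact_mod_cast hx.ne'
  have h5 : (x.1 : ℂ) ^ δ = (x.1 : ℂ) ^ (δ - j) * (x.1 : ℂ) ^ j := by
    rw [← pow_add]
    congr 1
    omega
  have h6 : (x.1 : ℂ) ^ (δ - j) ≠ 0 := pow_ne_zero _ hx0
  rw [h5]
  field_simp
  ring

/-- polynomials at the displaced points -/
lemma poly_tend {v : ℂ[X]} (hv : v.natDegree = δ) (hδ : 1 ≤ δ) (e : ℂ) : Tendsto (fun x : ℝ × ℂ =>
    v.eval ((x.1 : ℂ) * e * Complex.exp (-dz δ x)) - v.eval ((x.1 : ℂ) * e) -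
      -(δ * v.leadingCoeff * e ^ δ) * x.2) (FF l Z) (𝓝 0) := by
  have h1 : Tendsto (fun x : ℝ × ℂ => ∑ j ∈ Finset.range δ, v.coeff j * e ^ j *
      ((x.1 : ℂ) ^ j * (Complex.exp (-dz δ x) ^ j - 1))) (FF l Z) (𝓝 (∑ j ∈ Finset.range δ, 0)) := by
    refine tendsto_finsetSum _ fun j hj => ?_
    have := (pow_tend_lt (Z := Z) hl hδ (Finset.mem_range.1 hj)).const_mul (v.coeff j * e ^ j)
    rwa [mul_zero] at this
  rw [Finset.sum_const_zero] at h1
  have h2 := (pow_tend (Z := Z) hl hδ δ).const_mul (v.leadingCoeff * e ^ δ)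
  rw [mul_zero] at h2
  have h3 := h1.add h2
  rw [add_zero] at h3
  refine h3.congr fun x => ?_
  rw [eval_eq_sum_range, eval_eq_sum_range, hv, ← Finset.sum_sub_distrib,
    Finset.sum_range_succ _ δ]
  have h4 : v.coeff δ = v.leadingCoeff := by rw [leadingCoeff, hv]
  rw [h4]
  have h5 : ∀ j, v.coeff j * ((x.1 : ℂ) * e * Complex.exp (-dz δ x)) ^ j -
      v.coeff j * ((x.1 : ℂ) * e) ^ j = v.coeff j * e ^ j *
      ((x.1 : ℂ) ^ j * (Complex.exp (-dz δ x) ^ j - 1)) := by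
    intro j
    rw [mul_pow, mul_pow]
    ring
  rw [Finset.sum_congr rfl fun j _ => h5 j]
  rw [mul_pow, mul_pow]
  ring

omit hl in
lemma exp_W0 {ρ : ℝ} (hρ : 0 < ρ) : Complex.exp (-W0 φ ρ) = ρ * Complex.exp (φ * Complex.I) := by
  unfold W0
  rw [show -(-(Real.log ρ : ℂ) - φ * Complex.I) = (Real.log ρ : ℂ) + φ * Complex.I by ring,
    Complex.exp_add, ← Complex.ofReal_exp, Real.exp_log hρ]

omit hl in
lemma exp_ww {x : ℝ × ℂ} (hρ : 0 < x.1) : Complex.exp (-ww φ δ x) =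
    (x.1 : ℂ) * Complex.exp (φ * Complex.I) * Complex.exp (-dz δ x) := by
  unfold ww
  rw [neg_add, Complex.exp_add, exp_W0 hρ]

omit hl in
lemma norm_e : ‖Complex.exp (φ * Complex.I)‖ = 1 := Complex.norm_exp_ofReal_mul_I φ

lemma sec_ev (hδ : 1 ≤ δ) {ρ0 η : ℝ} (hη : 0 < η) :
    ∀ᶠ x in FF l Z, Complex.exp (-ww φ δ x) ∈ Sec φ ρ0 η ∧
      x.1 / 2 ≤ ‖Complex.exp (-ww φ δ x)‖ := by
  have hs := s_tend (Z := Z) hl hδ
  have hn : Tendsto (fun x => ‖Complex.exp (-dz δ x)‖) (FF l Z) (𝓝 1) := by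
    have := hs.norm
    rwa [norm_one] at this
  have h1 : ∀ᶠ x in FF l Z, 1 / 2 < ‖Complex.exp (-dz δ x)‖ :=
    hn.eventually (lt_mem_nhds (by norm_num))
  have h2 : Tendsto (fun x => ‖Complex.exp (-dz δ x) - ((‖Complex.exp (-dz δ x)‖ : ℝ) : ℂ)‖)
      (FF l Z) (𝓝 0) := by
    have h3 : Tendsto (fun x => ((‖Complex.exp (-dz δ x)‖ : ℝ) : ℂ)) (FF l Z) (𝓝 ((1 : ℝ) : ℂ)) :=
      (Complex.continuous_ofReal.tendsto _).comp hn
    have h4 := (hs.sub h3).norm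
    rwa [Complex.ofReal_one, sub_self, norm_zero] at h4
  have h5 : ∀ᶠ x in FF l Z, ‖Complex.exp (-dz δ x) - ((‖Complex.exp (-dz δ x)‖ : ℝ) : ℂ)‖ < η / 2 :=
    h2.eventually (gt_mem_nhds (by positivity))
  filter_upwards [h1, h5, of_fst (Z := Z) hl (eventually_gt_atTop 0),
    of_fst (Z := Z) hl (eventually_ge_atTop (2 * |ρ0|))] with x a1 a2 a3 a4
  have hT : ‖Complex.exp (-ww φ δ x)‖ = x.1 * ‖Complex.exp (-dz δ x)‖ := by
    rw [exp_ww a3, norm_mul, norm_mul, norm_e, mul_one, Complex.norm_real, Real.norm_eq_abs,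
      abs_of_pos a3]
  refine ⟨⟨?_, ?_⟩, ?_⟩
  · rw [hT]
    have := le_abs_self ρ0
    nlinarith
  · rw [hT, exp_ww a3]
    have h6 : (x.1 : ℂ) * Complex.exp (φ * Complex.I) * Complex.exp (-dz δ x) -
        ((x.1 * ‖Complex.exp (-dz δ x)‖ : ℝ) : ℂ) * Complex.exp (φ * Complex.I) =
        (x.1 : ℂ) * Complex.exp (φ * Complex.I) *
          (Complex.exp (-dz δ x) - ((‖Complex.exp (-dz δ x)‖ : ℝ) : ℂ)) := by
      push_cast
      ring
    rw [h6, norm_mul, norm_mul, norm_e, mul_one, Complex.norm_real, Real.norm_eq_abs,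
      abs_of_pos a3]
    have h7 : ‖Complex.exp (-dz δ x) - ((‖Complex.exp (-dz δ x)‖ : ℝ) : ℂ)‖ ≤
        η * ‖Complex.exp (-dz δ x)‖ := by nlinarith
    calc x.1 * ‖Complex.exp (-dz δ x) - ((‖Complex.exp (-dz δ x)‖ : ℝ) : ℂ)‖
        ≤ x.1 * (η * ‖Complex.exp (-dz δ x)‖) := by gcongr
      _ = η * (x.1 * ‖Complex.exp (-dz δ x)‖) := by ring
  · rw [hT]
    nlinarith

omit hl in
lemma W0_re (ρ : ℝ) : (W0 φ ρ).re = -Real.log ρ := by
  unfold W0
  simp

omit hl in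
lemma W0_im (ρ : ℝ) : (W0 φ ρ).im = -φ := by
  unfold W0
  simp

omit hl in
lemma W0_tend : Tendsto (W0 φ) atTop (comap Complex.re atBot) := by
  rw [tendsto_comap_iff]
  have : Complex.re ∘ W0 φ = fun ρ => -Real.log ρ := funext fun ρ => W0_re ρ
  rw [this]
  exact tendsto_neg_atTop_atBot.comp Real.tendsto_log_atTop

lemma ww_tend (hδ : 1 ≤ δ) : Tendsto (ww φ δ) (FF l Z) (comap Complex.re atBot) := by
  rw [tendsto_comap_iff]
  have h1 : Tendsto (fun x : ℝ × ℂ => (W0 φ x.1).re + (dz δ x).re) (FF l Z) atBot := by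
    refine tendsto_atBot_add_right_of_ge' _ 1 (tendsto_comap_iff.1 (tend_fst hl (W0_tend (φ := φ)))) ?_
    have h2 := (Complex.continuous_re.tendsto 0).comp (dz_tend (Z := Z) hl hδ)
    rw [Complex.zero_re] at h2
    filter_upwards [h2.eventually (gt_mem_nhds one_pos)] with x hx
    exact le_of_lt hx
  exact h1

/-- bounds of functions in `PB` -/
lemma pb_ev (hδ : 1 ≤ δ) {q : ℂ → ℂ} (hq : PB q) : ∃ (M : ℕ) (C : ℝ), 0 ≤ C ∧
    ∀ᶠ x in FF l Z, ‖q (ww φ δ x)‖ ≤ C * x.1 ^ M := by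
  obtain ⟨C, c, M, h⟩ := hq (|φ| + 1)
  refine ⟨M, |C| * Real.exp M, by positivity, ?_⟩
  have h1 : ∀ᶠ x in FF l Z, ‖dz δ x‖ < 1 := by
    have := (dz_tend (Z := Z) hl hδ).norm
    rw [norm_zero] at this
    exact this.eventually (gt_mem_nhds one_pos)
  have h2 : ∀ᶠ x in FF l Z, (ww φ δ x).re < c := by
    have := (tendsto_comap_iff.1 (ww_tend (Z := Z) (φ := φ) hl hδ)).eventually (eventually_lt_atBot c)
    exact this
  filter_upwards [h1, h2, of_fst (Z := Z) hl (eventually_gt_atTop 0)] with x a1 a2 a3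
  have hre := (Complex.abs_re_le_norm (dz δ x)).trans a1.le
  have him := (Complex.abs_im_le_norm (dz δ x)).trans a1.le
  have e1 : (ww φ δ x).re = -Real.log x.1 + (dz δ x).re := by
    unfold ww
    rw [Complex.add_re, W0_re]
  have e2 : (ww φ δ x).im = -φ + (dz δ x).im := by
    unfold ww
    rw [Complex.add_im, W0_im]
  refine (h _ a2 ?_).trans ?_
  · rw [e2]
    refine (abs_add_le _ _).trans ?_
    rw [abs_neg]
    linarith
  · have h3 : Real.exp (-(M * (ww φ δ x).re)) ≤ Real.exp M * x.1 ^ M := by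
      have h4 : Real.exp M * x.1 ^ M = Real.exp (M + M * Real.log x.1) := by
        rw [Real.exp_add, Real.exp_nat_mul, Real.exp_log a3]
      rw [h4]
      apply Real.exp_le_exp.2
      rw [e1]
      rw [abs_le] at hre
      have : (0 : ℝ) ≤ M := Nat.cast_nonneg _
      nlinarith [hre.1]
    calc C * Real.exp (-(M * (ww φ δ x).re)) ≤ |C| * Real.exp (-(M * (ww φ δ x).re)) :=
          mul_le_mul_of_nonneg_right (le_abs_self C) (Real.exp_pos _).le
      _ ≤ |C| * (Real.exp M * x.1 ^ M) := by gcongr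
      _ = |C| * Real.exp M * x.1 ^ M := by ring

end filt

/-! ### germs -/

lemma germ_form {c0 : ℝ} {B : ℂ → ℂ} (hB : Germ1 c0 B) : ∃ (k : ℤ) (b : ℂ → ℂ), ContinuousAt b 0 ∧
    b 0 ≠ 0 ∧ ∀ᶠ w in comap Complex.re atBot, B w = Complex.exp w ^ k * b (Complex.exp w) := by
  obtain ⟨a, ha, hne, hBa⟩ := hB
  obtain ⟨b, hb, hb0, hab⟩ := (meromorphicOrderAt_ne_top_iff ha).1
    ((meromorphicOrderAt_ne_top_iff_eventually_ne_zero ha).2 hne)
  refine ⟨(meromorphicOrderAt a 0).untop₀, b, hb.continuousAt, hb0, ?_⟩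
  have h1 : Tendsto Complex.exp (comap Complex.re atBot) (𝓝[≠] 0) := by
    rw [tendsto_nhdsWithin_iff]
    refine ⟨?_, Eventually.of_forall fun w => Complex.exp_ne_zero w⟩
    rw [← Complex.comap_exp_nhds_zero]
    exact tendsto_comap
  have h2 : ∀ᶠ w in comap Complex.re atBot, w.re < c0 :=
    tendsto_comap.eventually (eventually_lt_atBot c0)
  filter_upwards [h1.eventually hab, h2] with w hw hw2
  rw [hBa w hw2, hw, sub_zero, smul_eq_mul]

lemma exp_comap : Tendsto Complex.exp (comap Complex.re atBot) (𝓝 0) := by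
  rw [← Complex.comap_exp_nhds_zero]
  exact tendsto_comap

lemma germ_bd {c0 φ : ℝ} {B : ℂ → ℂ} (hB : Germ1 c0 B) : ∃ M : ℕ, ∀ᶠ ρ in atTop,
    (ρ ^ M)⁻¹ ≤ ‖B (W0 φ ρ)‖ ∧ ‖B (W0 φ ρ)‖ ≤ ρ ^ M := by
  obtain ⟨k, b, hb, hb0, h⟩ := germ_form hB
  refine ⟨k.natAbs + 1, ?_⟩
  have h1 := (W0_tend (φ := φ)).eventually h
  have h2 : Tendsto (fun ρ => ‖b (Complex.exp (W0 φ ρ))‖) atTop (𝓝 ‖b 0‖) :=
    (hb.tendsto.comp (exp_comap.comp (W0_tend (φ := φ)))).norm
  have hn : 0 < ‖b 0‖ := norm_pos_iff.2 hb0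
  have h3 : ∀ᶠ ρ in atTop, ‖b 0‖ / 2 < ‖b (Complex.exp (W0 φ ρ))‖ :=
    h2.eventually (lt_mem_nhds (by linarith))
  have h4 : ∀ᶠ ρ in atTop, ‖b (Complex.exp (W0 φ ρ))‖ < 2 * ‖b 0‖ :=
    h2.eventually (gt_mem_nhds (by linarith))
  filter_upwards [h1, h3, h4, eventually_ge_atTop 1, eventually_ge_atTop (2 * ‖b 0‖),
    eventually_ge_atTop (2 / ‖b 0‖)] with ρ a1 a2 a3 a4 a5 a6
  have hρ0 : 0 < ρ := by linarith
  have e1 : ‖Complex.exp (W0 φ ρ)‖ = ρ⁻¹ := by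
    rw [Complex.norm_exp, W0_re, Real.exp_neg, Real.exp_log hρ0]
  rw [a1, norm_mul, norm_zpow, e1]
  have hup : (ρ⁻¹) ^ k ≤ ρ ^ k.natAbs := by
    rw [inv_zpow', ← zpow_natCast]
    refine zpow_le_zpow_right₀ a4 ?_
    omega
  have hlo : (ρ ^ k.natAbs)⁻¹ ≤ (ρ⁻¹) ^ k := by
    rw [inv_zpow', ← zpow_natCast, ← zpow_neg]
    refine zpow_le_zpow_right₀ a4 ?_
    omega
  have hb1 : ρ⁻¹ ≤ ‖b (Complex.exp (W0 φ ρ))‖ := by
    rw [div_le_iff₀ hn] at a6
    rw [inv_le_comm₀ hρ0 (by linarith)]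
    rw [inv_le_comm₀ (by linarith) hρ0]
    have : ρ⁻¹ ≤ ‖b 0‖ / 2 := by
      rw [inv_le_comm₀ hρ0 (by linarith)]
      rw [inv_div, div_le_iff₀ hn]
      exact a6
    linarith
  constructor
  · rw [pow_succ, mul_inv]
    exact mul_le_mul hlo hb1 (by positivity) (by positivity)
  · rw [pow_succ]
    exact mul_le_mul hup (by linarith) (norm_nonneg _) (by positivity)

lemma germ_ratio {c0 φ Z : ℝ} {δ : ℕ} {l : Filter ℝ} (hl : l ≤ atTop) (hδ : 1 ≤ δ) {B : ℂ → ℂ}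
    (hB : Germ1 c0 B) : Tendsto (fun x => B (ww φ δ x) / B (W0 φ x.1)) (FF l Z) (𝓝 1) := by
  obtain ⟨k, b, hb, hb0, h⟩ := germ_form hB
  have h1 := (ww_tend (Z := Z) (φ := φ) hl hδ).eventually h
  have h2 := of_fst (Z := Z) hl ((W0_tend (φ := φ)).eventually h)
  have h3 : Tendsto (fun x => b (Complex.exp (ww φ δ x))) (FF l Z) (𝓝 (b 0)) :=
    hb.tendsto.comp (exp_comap.comp (ww_tend (Z := Z) (φ := φ) hl hδ))
  have h4 : Tendsto (fun x : ℝ × ℂ => b (Complex.exp (W0 φ x.1))) (FF l Z) (𝓝 (b 0)) :=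
    tend_fst hl (hb.tendsto.comp (exp_comap.comp (W0_tend (φ := φ))))
  have h5 : Tendsto (fun x => Complex.exp (dz δ x)) (FF l Z) (𝓝 1) := by
    have h2 := (Complex.continuous_exp.tendsto 0).comp (dz_tend (Z := Z) hl hδ)
    rwa [Complex.exp_zero] at h2
  have h6 : Tendsto (fun x => Complex.exp (dz δ x) ^ k) (FF l Z) (𝓝 (1 ^ k)) :=
    h5.zpow₀ k (Or.inl one_ne_zero)
  have h7 := h6.mul (h3.div h4 hb0)
  rw [one_zpow, div_self hb0, one_mul] at h7
  refine h7.congr' ?_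
  filter_upwards [h1, h2] with x a1 a2
  have e1 : Complex.exp (ww φ δ x) ^ k = Complex.exp (W0 φ x.1) ^ k * Complex.exp (dz δ x) ^ k := by
    unfold ww
    rw [Complex.exp_add, mul_zpow]
  rw [a1, a2, e1, Pi.div_apply, mul_assoc,
    mul_div_mul_left _ _ (zpow_ne_zero k (Complex.exp_ne_zero (W0 φ x.1))), mul_div_assoc]

/-! ### preparations -/

lemma deg_of_ne {v : ℂ[X]} (h0 : v.coeff 0 = 0) (hv : v ≠ 0) : 1 ≤ v.natDegree := by
  by_contra hcon
  have h1 : v.natDegree = 0 := by omega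
  rw [natDegree_eq_zero] at h1
  obtain ⟨x, rfl⟩ := h1
  rw [coeff_C_zero] at h0
  rw [h0, C_0] at hv
  exact hv rfl

lemma dirs (h1 : S_LB) {ι : Type} [Fintype ι] [Nonempty ι] (v : ι → ℂ[X])
    (hv0 : ∀ i, (v i).coeff 0 = 0) (hvd : ∀ i, 1 ≤ (v i).natDegree) :
    ∃ (φ c ρ0 η : ℝ) (s : ι), 0 < c ∧ 0 < ρ0 ∧ 0 < η ∧
      (∀ T ∈ Sec φ ρ0 η, c * ‖T‖ ≤ ((v s).eval T).re) ∧
      ∀ i, v i = v s ∨ ∀ T ∈ Sec φ ρ0 η, c * ‖T‖ ≤ ((v s).eval T).re - ((v i).eval T).re := by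
  classical
  obtain ⟨φ, c, ρ0, η, hc, hρ0, hη, hb, hW⟩ := h1
    (((Finset.univ : Finset (ι × ι)).image fun p => v p.1 - v p.2).filter fun w => 1 ≤ w.natDegree)
    (v (Classical.arbitrary ι)) (fun w hw => (Finset.mem_filter.1 hw).2) (hvd _)
  set T1 : ℂ := (ρ0 : ℂ) * Complex.exp (φ * Complex.I) with hT1
  have hn : ‖T1‖ = ρ0 := by
    rw [hT1, norm_mul, norm_e, mul_one, Complex.norm_real, Real.norm_eq_abs, abs_of_pos hρ0]
  have hmem : T1 ∈ Sec φ ρ0 η := by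
    refine ⟨hn.ge, ?_⟩
    rw [hn, hT1, sub_self, norm_zero]
    positivity
  obtain ⟨s, hs⟩ := Finite.exists_max fun i => ((v i).eval T1).re
  have hdich : ∀ i, v i = v s ∨ ∀ T ∈ Sec φ ρ0 η,
      c * ‖T‖ ≤ ((v s).eval T).re - ((v i).eval T).re := by
    intro i
    by_cases h : v i = v s
    · exact Or.inl h
    · right
      have hd : 1 ≤ (v s - v i).natDegree := by
        refine deg_of_ne ?_ (sub_ne_zero.2 (Ne.symm h))
        rw [coeff_sub, hv0, hv0, sub_zero]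
      have hm : v s - v i ∈ (((Finset.univ : Finset (ι × ι)).image
          fun p => v p.1 - v p.2).filter fun w => 1 ≤ w.natDegree) := by
        rw [Finset.mem_filter, Finset.mem_image]
        exact ⟨⟨(s, i), Finset.mem_univ _, rfl⟩, hd⟩
      rcases hW _ hm with h2 | h2
      · intro T hT
        have := h2 T hT
        rwa [eval_sub, Complex.sub_re] at this
      · exfalso
        have h3 := h2 T1 hmem
        rw [eval_sub, Complex.sub_re, hn] at h3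
        have h4 := hs i
        have : 0 < c * ρ0 := by positivity
        linarith
  refine ⟨φ, c, ρ0, η, s, hc, hρ0, hη, fun T hT => ?_, hdich⟩
  have h2 := hb T hT
  rcases hdich (Classical.arbitrary ι) with h3 | h3
  · rw [← h3]
    exact h2
  · have := h3 T hT
    have : 0 ≤ c * ‖T‖ := by positivity
    linarith

/-- zeros in a disc -/
lemma disc_zero {F : ℂ → ℂ} {z0 : ℂ} {r m : ℝ} (hr : 0 < r) (hm : 0 < m)
    (hF : DifferentiableOn ℂ F (Metric.closedBall z0 r))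
    (hb : ∀ z ∈ Metric.sphere z0 r, m ≤ ‖F z‖) (h0 : ‖F z0‖ < m) :
    ∃ z ∈ Metric.closedBall z0 r, F z = 0 := by
  by_contra hcon
  push Not at hcon
  have h1 : DifferentiableOn ℂ (fun z => (F z)⁻¹) (Metric.closedBall z0 r) := hF.inv hcon
  have hd : DiffContOnCl ℂ (fun z => (F z)⁻¹) (Metric.ball z0 r) := by
    refine ⟨h1.mono Metric.ball_subset_closedBall, ?_⟩
    rw [closure_ball _ hr.ne']
    exact h1.continuousOn
  have h2 := Complex.norm_le_of_forall_mem_frontier_norm_le Metric.isBounded_ball hd (C := m⁻¹) (by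
    intro z hz
    rw [frontier_ball _ hr.ne'] at hz
    rw [norm_inv]
    exact inv_anti₀ hm (hb z hz)) (subset_closure (Metric.mem_ball_self hr))
  rw [norm_inv] at h2
  have h3 : 0 < ‖F z0‖ := norm_pos_iff.2 (hcon z0 (Metric.mem_closedBall_self hr.le))
  have h4 := (inv_le_inv₀ h3 hm).1 h2
  linarith

lemma circ {p : ℂ[X]} (hp0 : p.eval 0 = 1) (hp : 1 ≤ p.natDegree) {μ : ℂ} (hμ : μ ≠ 0) :
    ∃ (ζ0 : ℂ) (r m : ℝ), 0 < r ∧ 0 < m ∧ p.eval (Complex.exp (μ * ζ0)) = 0 ∧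
      ∀ ζ ∈ Metric.sphere ζ0 r, 2 * m ≤ ‖p.eval (Complex.exp (μ * ζ))‖ := by
  obtain ⟨z1, hz1⟩ := IsAlgClosed.exists_root p (by
    intro h
    rw [degree_eq_natDegree (by rintro rfl; simp at hp)] at h
    have : p.natDegree = 0 := by exact_mod_cast h
    omega)
  have hz1' : p.eval z1 = 0 := hz1
  have hz0 : z1 ≠ 0 := by
    rintro rfl
    rw [hp0] at hz1'
    exact one_ne_zero hz1'
  have hexp : ∀ z : ℂ, z ≠ 0 → Complex.exp (μ * (Complex.log z / μ)) = z := by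
    intro z hz
    rw [mul_div_cancel₀ _ hμ, Complex.exp_log hz]
  have hcont : Continuous fun ζ : ℂ => p.eval (Complex.exp (μ * ζ)) :=
    p.continuous.comp (Complex.continuous_exp.comp (by fun_prop))
  have hdiff : Differentiable ℂ fun ζ : ℂ => p.eval (Complex.exp (μ * ζ)) :=
    p.differentiable.comp (Complex.differentiable_exp.comp (by fun_prop))
  set ζ0 := Complex.log z1 / μ with hζ0
  have hL0 : p.eval (Complex.exp (μ * ζ0)) = 0 := by rw [hζ0, hexp z1 hz0, hz1']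
  obtain ⟨r, hr, hne⟩ : ∃ r : ℝ, 0 < r ∧ ∀ ζ ∈ Metric.sphere ζ0 r,
      p.eval (Complex.exp (μ * ζ)) ≠ 0 := by
    rcases (hdiff.analyticAt ζ0).eventually_eq_zero_or_eventually_ne_zero with h | h
    · exfalso
      have h2 : ∀ ζ : ℂ, p.eval (Complex.exp (μ * ζ)) = 0 := by
        have h3 : AnalyticOnNhd ℂ (fun ζ : ℂ => p.eval (Complex.exp (μ * ζ))) Set.univ :=
          fun ζ _ => hdiff.analyticAt ζ
        intro ζ
        exact h3.eqOn_zero_of_preconnected_of_eventuallyEq_zero isPreconnected_univ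
          (Set.mem_univ ζ0) h (Set.mem_univ ζ)
      have h4 : p = 0 := by
        refine Polynomial.eq_zero_of_infinite_isRoot p ?_
        refine Set.Infinite.mono (s := {z : ℂ | z ≠ 0}) (fun z hz => ?_) ?_
        · have := h2 (Complex.log z / μ)
          rw [hexp z hz] at this
          exact this
        · have : {z : ℂ | z ≠ 0} = {0}ᶜ := rfl
          rw [this]
          exact (Set.finite_singleton (0 : ℂ)).infinite_compl
      rw [h4] at hp
      simp at hp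
    · rw [eventually_nhdsWithin_iff, Metric.eventually_nhds_iff] at h
      obtain ⟨ε, hε, h⟩ := h
      refine ⟨ε / 2, by positivity, fun ζ hζ => ?_⟩
      rw [Metric.mem_sphere] at hζ
      refine h (by rw [hζ]; linarith) ?_
      rintro rfl
      rw [dist_self] at hζ
      linarith
  obtain ⟨z2, hz2, hmin⟩ := (isCompact_sphere ζ0 r).exists_isMinOn
    (NormedSpace.sphere_nonempty.2 hr.le) hcont.norm.continuousOn
  have hpos : 0 < ‖p.eval (Complex.exp (μ * z2))‖ := norm_pos_iff.2 (hne z2 hz2)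
  refine ⟨ζ0, r, ‖p.eval (Complex.exp (μ * z2))‖ / 2, hr, by positivity, hL0, fun ζ hζ => ?_⟩
  have := hmin hζ
  simp only [Set.mem_ofPred_eq] at this
  linarith

/-- powers against the exponential -/
lemma pow_exp {κ : ℝ} (hκ : 0 < κ) (n : ℕ) :
    Tendsto (fun ρ : ℝ => ρ ^ n * Real.exp (-(κ * ρ))) atTop (𝓝 0) := by
  have h1 := (Real.tendsto_pow_mul_exp_neg_atTop_nhds_zero n).comp
    (tendsto_id.const_mul_atTop hκ)
  have h2 := h1.const_mul ((κ ^ n)⁻¹)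
  rw [mul_zero] at h2
  refine h2.congr fun ρ => ?_
  simp only [Function.comp, id]
  rw [mul_pow]
  have : κ ^ n ≠ 0 := by positivity
  field_simp

theorem xx (h1 : S_LB) : S_XX := by
  intro D ι _ _ u d c0 A g q0 q huinj hu0 hud hdD hAd hgd hA hg hq0 hq
  classical
  set a : ι → ℕ := fun i => D - d i with ha
  have ha1 : ∀ i, 1 ≤ a i := fun i => by have := hdD i; simp only [ha]; omega
  have had : ∀ i, a i + d i = D := fun i => by have := hdD i; simp only [ha]; omega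
  have hac : ∀ i, ((a i : ℂ)) ≠ 0 := fun i => by
    have := ha1 i
    exact_mod_cast (by omega : a i ≠ 0)
  set v : ι → ℂ[X] := fun i => C ((a i : ℂ)⁻¹) * u i with hv
  have huv : ∀ i T, (u i).eval T = (a i : ℂ) * (v i).eval T := by
    intro i T
    simp only [hv, eval_mul, eval_C]
    rw [mul_inv_cancel_left₀ (hac i)]
  have hv0 : ∀ i, (v i).coeff 0 = 0 := fun i => by
    simp only [hv, coeff_C_mul, hu0, mul_zero]
  have hvd : ∀ i, 1 ≤ (v i).natDegree := fun i => by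
    simp only [hv]
    rw [natDegree_C_mul (inv_ne_zero (hac i))]
    exact hud i
  obtain ⟨φ, c, ρ0, η, s, hc, hρ0, hη, hbase, hdich⟩ := dirs h1 v hv0 hvd
  set e : ℂ := Complex.exp (φ * Complex.I) with he
  have hen : ‖e‖ = 1 := norm_e
  set δ : ℕ := (v s).natDegree with hδd
  have hδ : 1 ≤ δ := hvd s
  have hlead : (v s).leadingCoeff ≠ 0 := by
    rw [leadingCoeff_ne_zero]
    intro h
    have := hvd s
    rw [h] at this
    simp at this
  set μ : ℂ := -(δ * (v s).leadingCoeff * e ^ δ) with hμ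
  have hμ0 : μ ≠ 0 := by
    have h2 : (δ : ℂ) ≠ 0 := by exact_mod_cast (by omega : δ ≠ 0)
    exact neg_ne_zero.2 (mul_ne_zero (mul_ne_zero h2 hlead) (pow_ne_zero _ (Complex.exp_ne_zero _)))
  set Is : Finset ι := Finset.univ.filter fun i => v i = v s with hIs
  have hsIs : s ∈ Is := by simp [hIs]
  have hIsm : ∀ i ∈ Is, v i = v s := fun i hi => (Finset.mem_filter.1 hi).2
  have hnIs : ∀ i, i ∉ Is → ∀ T ∈ Sec φ ρ0 η,
      c * ‖T‖ ≤ ((v s).eval T).re - ((v i).eval T).re := by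
    intro i hi
    rcases hdich i with h | h
    · exact absurd (by simp [hIs, h]) hi
    · exact h
  have hle : ∀ i, ∀ T ∈ Sec φ ρ0 η, ((v i).eval T).re ≤ ((v s).eval T).re := by
    intro i T hT
    rcases hdich i with h | h
    · rw [h]
    · have := h T hT
      have : 0 ≤ c * ‖T‖ := by positivity
      linarith
  have hainj : ∀ i ∈ Is, ∀ j ∈ Is, a i = a j → i = j := by
    intro i hi j hj hij
    apply huinj
    refine Polynomial.funext fun T => ?_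
    rw [huv, huv, hij, hIsm i hi, hIsm j hj]
  -- sizes
  set E : ℝ → ℝ := fun ρ => Real.exp ((v s).eval ((ρ : ℂ) * e)).re with hE
  have hE0 : ∀ ρ, 0 < E ρ := fun ρ => Real.exp_pos _
  have hEexp : ∀ᶠ ρ in atTop, Real.exp (c * ρ) ≤ E ρ := by
    filter_upwards [eventually_ge_atTop ρ0] with ρ hρ
    have hρp : 0 < ρ := lt_of_lt_of_le hρ0 hρ
    have hn : ‖(ρ : ℂ) * e‖ = ρ := by
      rw [norm_mul, hen, mul_one, Complex.norm_real, Real.norm_eq_abs, abs_of_pos hρp]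
    have hmem : (ρ : ℂ) * e ∈ Sec φ ρ0 η := by
      refine ⟨by rw [hn]; exact hρ, ?_⟩
      rw [hn, sub_self, norm_zero]
      positivity
    have := hbase _ hmem
    rw [hn] at this
    exact Real.exp_le_exp.2 this
  obtain ⟨MA, hMA⟩ := germ_bd (φ := φ) hA
  choose Mg hMg using fun i => germ_bd (φ := φ) (hg i)
  set τ : ι → ℝ → ℝ := fun i ρ =>
    E ρ * (‖g i (W0 φ ρ)‖ / ‖A (W0 φ ρ)‖) ^ ((a i : ℝ)⁻¹) with hτ
  have hτ0 : ∀ i ρ, 0 ≤ τ i ρ := fun i ρ => by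
    simp only [hτ]
    have := hE0 ρ
    positivity
  set t : ℝ → ℝ := fun ρ => ∑ i ∈ Is, τ i ρ with ht
  have hτt : ∀ i ∈ Is, ∀ ρ, τ i ρ ≤ t ρ := fun i hi ρ =>
    Finset.single_le_sum (f := fun i => τ i ρ) (fun j _ => hτ0 j ρ) hi
  set M0 : ℕ := MA + Mg s with hM0
  have hEt : ∀ᶠ ρ in atTop, E ρ ≤ ρ ^ M0 * t ρ := by
    filter_upwards [hMA, hMg s, eventually_ge_atTop 1] with ρ b1 b2 b3
    have hρ : 0 < ρ := by linarith
    have hx : (ρ ^ M0)⁻¹ ≤ ‖g s (W0 φ ρ)‖ / ‖A (W0 φ ρ)‖ := by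
      have hApos : 0 < ‖A (W0 φ ρ)‖ := lt_of_lt_of_le (by positivity) b1.1
      rw [le_div_iff₀ hApos, hM0, pow_add, mul_inv]
      calc (ρ ^ MA)⁻¹ * (ρ ^ Mg s)⁻¹ * ‖A (W0 φ ρ)‖ ≤ (ρ ^ MA)⁻¹ * (ρ ^ Mg s)⁻¹ * ρ ^ MA := by
            gcongr
            exact b1.2
        _ = (ρ ^ Mg s)⁻¹ := by field_simp
        _ ≤ _ := b2.1
    have hy : (ρ ^ M0)⁻¹ ≤ (‖g s (W0 φ ρ)‖ / ‖A (W0 φ ρ)‖) ^ ((a s : ℝ)⁻¹) := by
      have h2 : (ρ ^ M0)⁻¹ ≤ ((ρ ^ M0)⁻¹) ^ ((a s : ℝ)⁻¹) := by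
        have h3 : (ρ ^ M0)⁻¹ ≤ 1 := inv_le_one_of_one_le₀ (one_le_pow₀ b3)
        have h4 : ((a s : ℝ)⁻¹) ≤ 1 := inv_le_one_of_one_le₀ (by exact_mod_cast ha1 s)
        have := Real.rpow_le_rpow_of_exponent_ge (x := (ρ ^ M0)⁻¹) (by positivity) h3 h4
        rwa [Real.rpow_one] at this
      exact h2.trans (Real.rpow_le_rpow (by positivity) hx (by positivity))
    have h5 := hτt s hsIs ρ
    have h6 : E ρ * (ρ ^ M0)⁻¹ ≤ τ s ρ := mul_le_mul_of_nonneg_left hy (hE0 ρ).le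
    have h7 : E ρ = ρ ^ M0 * (E ρ * (ρ ^ M0)⁻¹) := by
      have : ρ ^ M0 ≠ 0 := by positivity
      field_simp
    rw [h7]
    have : 0 ≤ ρ ^ M0 := by positivity
    exact mul_le_mul_of_nonneg_left (h6.trans h5) this
  have htpos : ∀ᶠ ρ in atTop, 0 < t ρ := by
    filter_upwards [hEt, eventually_gt_atTop 0] with ρ b1 b2
    by_contra hcon
    push Not at hcon
    have : ρ ^ M0 * t ρ ≤ 0 := mul_nonpos_of_nonneg_of_nonpos (by positivity) hcon
    linarith [hE0 ρ]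
  have hpowt : ∀ n : ℕ, Tendsto (fun ρ => ρ ^ n / t ρ) atTop (𝓝 0) := by
    intro n
    refine tendsto_of_tendsto_of_tendsto_of_le_of_le' tendsto_const_nhds (pow_exp hc (n + M0)) ?_ ?_
    · filter_upwards [htpos, eventually_ge_atTop 0] with ρ b1 b2
      positivity
    · filter_upwards [htpos, hEt, hEexp, eventually_gt_atTop 0] with ρ b1 b2 b3 b4
      rw [div_le_iff₀ b1, Real.exp_neg]
      have h2 : Real.exp (c * ρ) ≤ ρ ^ M0 * t ρ := b3.trans b2
      have h3 : 0 < Real.exp (c * ρ) := Real.exp_pos _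
      rw [pow_add, mul_assoc, mul_assoc, mul_comm, mul_assoc]
      calc ρ ^ n = Real.exp (c * ρ) * (ρ ^ n * (Real.exp (c * ρ))⁻¹) := by field_simp
        _ ≤ (ρ ^ M0 * t ρ) * (ρ ^ n * (Real.exp (c * ρ))⁻¹) := by gcongr
        _ = _ := by ring
  have httop : Tendsto t atTop atTop := by
    have h2 := hpowt 0
    simp only [pow_zero, one_div] at h2
    have h3 : Tendsto (fun ρ => (t ρ)⁻¹) atTop (𝓝[>] 0) := by
      rw [tendsto_nhdsWithin_iff]
      refine ⟨h2, ?_⟩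
      filter_upwards [htpos] with ρ b1
      exact inv_pos.2 b1
    have h4 := h3.inv_tendsto_nhdsGT_zero
    refine h4.congr fun ρ => ?_
    rw [Pi.inv_apply, inv_inv]
  set Λ : ℝ → ℕ := fun ρ => ⌊t ρ⌋₊ with hΛ
  have hΛt : Tendsto (fun ρ => (Λ ρ : ℝ) / t ρ) atTop (𝓝 1) :=
    (tendsto_nat_floor_div_atTop (R := ℝ)).comp httop
  have hpowΛ : ∀ n : ℕ, Tendsto (fun ρ => ρ ^ n / (Λ ρ : ℝ)) atTop (𝓝 0) := by
    intro n
    have h2 := (hpowt n).div hΛt one_ne_zero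
    rw [zero_div] at h2
    refine h2.congr' ?_
    filter_upwards [htpos] with ρ b1
    simp only [Pi.div_apply]
    rw [div_div_div_cancel_right₀ b1.ne']
  have hΛ1 : ∀ᶠ ρ in atTop, (1 : ℝ) ≤ Λ ρ ∧ t ρ ≤ 2 * Λ ρ := by
    have h2 : ∀ᶠ ρ in atTop, 1 / 2 < (Λ ρ : ℝ) / t ρ := hΛt.eventually (lt_mem_nhds (by norm_num))
    filter_upwards [h2, htpos, httop.eventually (eventually_ge_atTop 1)] with ρ b1 b2 b3
    constructor
    · have : 1 ≤ Λ ρ := (Nat.one_le_floor_iff _).2 b3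
      exact_mod_cast this
    · rw [lt_div_iff₀ b2] at b1
      linarith
  -- the constants
  set l0 : Ultrafilter ℝ := Ultrafilter.of atTop with hl0
  have hl : (l0 : Filter ℝ) ≤ atTop := Ultrafilter.of_le _
  set cf : ι → ℝ → ℂ := fun i ρ => Complex.exp ((u i).eval ((ρ : ℂ) * e)) * g i (W0 φ ρ) /
    ((t ρ : ℂ) ^ a i * A (W0 φ ρ)) with hcf
  have hcfn : ∀ i ∈ Is, ∀ᶠ ρ in atTop, ‖cf i ρ‖ = (τ i ρ / t ρ) ^ a i := by
    intro i hi
    filter_upwards [htpos, hMA, eventually_gt_atTop 0] with ρ b1 b2 b3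
    have hApos : 0 < ‖A (W0 φ ρ)‖ := lt_of_lt_of_le (by positivity) b2.1
    simp only [hcf, hτ, hE]
    rw [norm_div, norm_mul, norm_mul, norm_pow, Complex.norm_exp, Complex.norm_real,
      Real.norm_eq_abs, abs_of_pos b1, huv, hIsm i hi, div_pow, mul_pow,
      ← Real.rpow_natCast (_ ^ _) (a i), ← Real.rpow_mul (by positivity),
      inv_mul_cancel₀ (by exact_mod_cast (by have := ha1 i; omega : a i ≠ 0)), Real.rpow_one,
      ← Real.exp_nat_mul]
    have h2 : ((a i : ℂ) * (v s).eval ((ρ : ℂ) * e)).re = a i * ((v s).eval ((ρ : ℂ) * e)).re := by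
      have : (a i : ℂ) = ((a i : ℝ) : ℂ) := by push_cast; rfl
      rw [this, Complex.re_ofReal_mul]
    rw [h2]
    field_simp
  have hratio : ∀ i ∈ Is, ∀ᶠ ρ in atTop, 0 ≤ τ i ρ / t ρ ∧ τ i ρ / t ρ ≤ 1 := by
    intro i hi
    filter_upwards [htpos] with ρ b1
    exact ⟨div_nonneg (hτ0 i ρ) b1.le, (div_le_one b1).2 (hτt i hi ρ)⟩
  have hlim : ∀ i, ∃ z : ℂ, i ∈ Is → Tendsto (cf i) l0 (𝓝 z) := by
    intro i
    by_cases hi : i ∈ Is
    · have h2 : ∀ᶠ ρ in (l0 : Filter ℝ), cf i ρ ∈ Metric.closedBall (0 : ℂ) 1 := by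
        filter_upwards [hl (hcfn i hi), hl (hratio i hi)] with ρ b1 b2
        rw [mem_closedBall_zero_iff, b1]
        exact pow_le_one₀ b2.1 b2.2
      obtain ⟨z, -, hz⟩ := (isCompact_closedBall (0 : ℂ) 1).ultrafilter_le_nhds (l0.map (cf i))
        (by
          rw [le_principal_iff]
          exact h2)
      exact ⟨z, fun _ => hz⟩
    · exact ⟨0, fun h => absurd h hi⟩
  choose cc hcc using hlim
  obtain ⟨i0, hi0, hcc0⟩ : ∃ i ∈ Is, cc i ≠ 0 := by
    by_contra hcon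
    push Not at hcon
    have h2 : ∀ i ∈ Is, Tendsto (fun ρ => τ i ρ / t ρ) l0 (𝓝 0) := by
      intro i hi
      have h3 := (hcc i hi).norm
      rw [hcon i hi, norm_zero] at h3
      have h4 : Tendsto (fun ρ => (‖cf i ρ‖) ^ ((a i : ℝ)⁻¹)) l0 (𝓝 (0 ^ ((a i : ℝ)⁻¹))) :=
        h3.rpow_const (Or.inr (by positivity))
      have hane : ((a i : ℝ)⁻¹) ≠ 0 := inv_ne_zero (by exact_mod_cast (by have := ha1 i; omega : a i ≠ 0))
      rw [Real.zero_rpow hane] at h4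
      refine h4.congr' ?_
      filter_upwards [hl (hcfn i hi), hl (hratio i hi)] with ρ b1 b2
      rw [b1, ← Real.rpow_natCast, ← Real.rpow_mul b2.1,
        mul_inv_cancel₀ (by exact_mod_cast (by have := ha1 i; omega : a i ≠ 0)), Real.rpow_one]
    have h3 := tendsto_finsetSum Is h2
    rw [Finset.sum_const_zero] at h3
    have h4 : Tendsto (fun ρ => ∑ i ∈ Is, τ i ρ / t ρ) l0 (𝓝 1) := by
      refine tendsto_const_nhds.congr' ?_
      filter_upwards [hl htpos] with ρ b1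
      rw [← Finset.sum_div]
      exact (div_self b1.ne').symm
    exact zero_ne_one (tendsto_nhds_unique h3 h4)
  -- the limit
  set p : ℂ[X] := 1 + ∑ i ∈ Is, C (cc i) * X ^ a i with hp
  have hpe : ∀ z, p.eval z = 1 + ∑ i ∈ Is, cc i * z ^ a i := by
    intro z
    rw [hp, eval_add, eval_one, eval_finsetSum]
    simp only [eval_mul, eval_C, eval_pow, eval_X]
  have hp0 : p.eval 0 = 1 := by
    rw [hpe, Finset.sum_eq_zero, add_zero]
    intro i _
    rw [zero_pow (by have := ha1 i; omega), mul_zero]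
  have hpd : 1 ≤ p.natDegree := by
    have h2 : p.coeff (a i0) = cc i0 := by
      rw [hp, coeff_add, finsetSum_coeff, coeff_one, if_neg (by have := ha1 i0; omega), zero_add,
        Finset.sum_eq_single i0]
      · rw [coeff_C_mul, coeff_X_pow, if_pos rfl, mul_one]
      · intro j hj hji
        rw [coeff_C_mul, coeff_X_pow, if_neg (fun h => hji (hainj i0 hi0 j hj h).symm), mul_zero]
      · intro h
        exact absurd hi0 h
    have h3 := le_natDegree_of_ne_zero (by rw [h2]; exact hcc0 : p.coeff (a i0) ≠ 0)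
    exact (ha1 i0).trans h3
  obtain ⟨ζ0, r, m, hr, hm, hz0, hsph⟩ := circ hp0 hpd hμ0
  set Z : ℝ := ‖ζ0‖ + r with hZ
  have hZin : Metric.closedBall ζ0 r ⊆ Metric.closedBall 0 Z := by
    intro ζ hζ
    rw [mem_closedBall_zero_iff]
    rw [mem_closedBall_iff_norm] at hζ
    calc ‖ζ‖ = ‖(ζ - ζ0) + ζ0‖ := by rw [sub_add_cancel]
      _ ≤ ‖ζ - ζ0‖ + ‖ζ0‖ := norm_add_le _ _
      _ ≤ Z := by rw [hZ]; linarith
  -- facts along the filter
  have hRA := germ_ratio (Z := Z) (φ := φ) hl hδ hA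
  have hvt : Tendsto (fun x => (v s).eval (Complex.exp (-ww φ δ x)) - (v s).eval ((x.1 : ℂ) * e) -
      μ * x.2) (FF l0 Z) (𝓝 0) := by
    refine (poly_tend (Z := Z) hl (v := v s) rfl hδ e).congr' ?_
    filter_upwards [of_fst (Z := Z) hl (eventually_gt_atTop 0)] with x b1
    rw [exp_ww b1]
  have hsec := sec_ev (Z := Z) (φ := φ) (ρ0 := ρ0) hl hδ hη
  obtain ⟨C1, hC1, hP1⟩ : ∃ C1 : ℝ, 0 ≤ C1 ∧ ∀ᶠ x in FF l0 Z,
      Real.exp ((v s).eval (Complex.exp (-ww φ δ x))).re ≤ C1 * x.1 ^ M0 * Λ x.1 := by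
    refine ⟨Real.exp (‖μ‖ * Z + 1) * 2, by positivity, ?_⟩
    have h2 := hvt.norm
    rw [norm_zero] at h2
    filter_upwards [h2.eventually (gt_mem_nhds one_pos), ev_snd (l := l0) (Z := Z),
      of_fst (Z := Z) hl hEt, of_fst (Z := Z) hl hΛ1, of_fst (Z := Z) hl (eventually_gt_atTop 0)]
      with x b1 b2 b3 b4 b5
    have h3 := Complex.re_le_norm ((v s).eval (Complex.exp (-ww φ δ x)) -
      (v s).eval ((x.1 : ℂ) * e) - μ * x.2)
    have h4 : (μ * x.2).re ≤ ‖μ‖ * Z := by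
      refine (Complex.re_le_norm _).trans ?_
      rw [norm_mul]
      gcongr
    rw [Complex.sub_re, Complex.sub_re] at h3
    have h5 : ((v s).eval (Complex.exp (-ww φ δ x))).re ≤
        (‖μ‖ * Z + 1) + ((v s).eval ((x.1 : ℂ) * e)).re := by linarith
    calc Real.exp ((v s).eval (Complex.exp (-ww φ δ x))).re
        ≤ Real.exp ((‖μ‖ * Z + 1) + ((v s).eval ((x.1 : ℂ) * e)).re) := Real.exp_le_exp.2 h5
      _ = Real.exp (‖μ‖ * Z + 1) * E x.1 := Real.exp_add _ _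
      _ ≤ Real.exp (‖μ‖ * Z + 1) * (x.1 ^ M0 * t x.1) := by gcongr
      _ ≤ Real.exp (‖μ‖ * Z + 1) * (x.1 ^ M0 * (2 * Λ x.1)) := by
          gcongr
          exact b4.2
      _ = _ := by ring
  have hexpu : ∀ i, ∀ x : ℝ × ℂ, ‖Complex.exp ((u i).eval (Complex.exp (-ww φ δ x)))‖ =
      Real.exp ((v i).eval (Complex.exp (-ww φ δ x))).re ^ a i := by
    intro i x
    rw [Complex.norm_exp, huv]
    have : (a i : ℂ) = ((a i : ℝ) : ℂ) := by push_cast; rfl
    rw [this, Complex.re_ofReal_mul, Real.exp_nat_mul]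
  -- small terms
  have hsmall : ∀ (F : ℝ × ℂ → ℂ) (n k k' M : ℕ) (Cc : ℝ), 0 ≤ Cc → k' + n + 1 ≤ k →
      (∀ᶠ x in FF l0 Z, ‖F x‖ ≤ Cc * x.1 ^ M * (Λ x.1 : ℝ) ^ n) →
      Tendsto (fun x => F x * (Λ x.1 : ℂ) ^ k' / (Λ x.1 : ℂ) ^ k) (FF l0 Z) (𝓝 0) := by
    intro F n k k' M Cc hCc hk hF
    rw [tendsto_zero_iff_norm_tendsto_zero]
    have h2 := (tend_fst (Z := Z) hl (hpowΛ M)).const_mul Cc
    rw [mul_zero] at h2
    refine tendsto_of_tendsto_of_tendsto_of_le_of_le' tendsto_const_nhds h2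
      (Eventually.of_forall fun _ => norm_nonneg _) ?_
    filter_upwards [hF, of_fst (Z := Z) hl hΛ1, of_fst (Z := Z) hl (eventually_gt_atTop 0)]
      with x b1 b2 b3
    rw [norm_div, norm_mul, norm_pow, norm_pow, Complex.norm_natCast]
    have hL0 : (0 : ℝ) < Λ x.1 := by linarith [b2.1]
    rw [div_le_iff₀ (by positivity)]
    have h3 : (Λ x.1 : ℝ) ^ n * (Λ x.1 : ℝ) ^ k' * (Λ x.1 : ℝ) ≤ (Λ x.1 : ℝ) ^ k := by
      rw [← pow_add, ← pow_succ]
      exact pow_le_pow_right₀ b2.1 (by omega)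
    calc ‖F x‖ * (Λ x.1 : ℝ) ^ k' ≤ Cc * x.1 ^ M * (Λ x.1 : ℝ) ^ n * (Λ x.1 : ℝ) ^ k' := by gcongr
      _ = Cc * (x.1 ^ M / Λ x.1) * ((Λ x.1 : ℝ) ^ n * (Λ x.1 : ℝ) ^ k' * (Λ x.1 : ℝ)) := by
          field_simp
      _ ≤ Cc * (x.1 ^ M / Λ x.1) * (Λ x.1 : ℝ) ^ k := by gcongr
  have hAinv : ∀ᶠ x in FF l0 Z, A (W0 φ x.1) ≠ 0 ∧ ‖(A (W0 φ x.1))⁻¹‖ ≤ x.1 ^ MA := by
    filter_upwards [of_fst (Z := Z) hl hMA, of_fst (Z := Z) hl (eventually_gt_atTop 0)] with x b1 b2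
    have hApos : 0 < ‖A (W0 φ x.1)‖ := lt_of_lt_of_le (by positivity) b1.1
    refine ⟨norm_pos_iff.1 hApos, ?_⟩
    rw [norm_inv]
    exact inv_le_of_inv_le₀ (by positivity) b1.1
  have hT1 : ∀ n ∈ Finset.range D, Tendsto (fun x => (q0 n (ww φ δ x) * (A (W0 φ x.1))⁻¹) *
      (Λ x.1 : ℂ) ^ n / (Λ x.1 : ℂ) ^ D) (FF l0 Z) (𝓝 0) := by
    intro n hn
    obtain ⟨M, Cq, hCq, h2⟩ := pb_ev (Z := Z) (φ := φ) hl hδ (hq0 n).2
    refine hsmall _ 0 D n (M + MA) Cq hCq (by have := Finset.mem_range.1 hn; omega) ?_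
    filter_upwards [h2, hAinv, of_fst (Z := Z) hl (eventually_gt_atTop 0)] with x b1 b2 b3
    rw [norm_mul, pow_zero, mul_one, pow_add, ← mul_assoc]
    exact mul_le_mul b1 b2.2 (norm_nonneg _) (by positivity)
  have hT5 : ∀ i, ∀ n ∈ Finset.range (d i), Tendsto (fun x =>
      (Complex.exp ((u i).eval (Complex.exp (-ww φ δ x))) * q i n (ww φ δ x) *
        (A (W0 φ x.1))⁻¹) * (Λ x.1 : ℂ) ^ n / (Λ x.1 : ℂ) ^ D) (FF l0 Z) (𝓝 0) := by
    intro i n hn
    obtain ⟨M, Cq, hCq, h2⟩ := pb_ev (Z := Z) (φ := φ) hl hδ (hq i n).2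
    refine hsmall _ (a i) D n (M0 * a i + M + MA) (C1 ^ a i * Cq) (by positivity)
      (by have := Finset.mem_range.1 hn; have := had i; omega) ?_
    filter_upwards [h2, hAinv, of_fst (Z := Z) hl (eventually_gt_atTop 0), hP1, hsec]
      with x b1 b2 b3 b4 b5
    rw [norm_mul, norm_mul, hexpu]
    have h3 : Real.exp ((v i).eval (Complex.exp (-ww φ δ x))).re ^ a i ≤
        (C1 * x.1 ^ M0 * Λ x.1) ^ a i :=
      pow_le_pow_left₀ (Real.exp_pos _).le
        ((Real.exp_le_exp.2 (hle i _ b5.1)).trans b4) _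
    calc Real.exp ((v i).eval (Complex.exp (-ww φ δ x))).re ^ a i * ‖q i n (ww φ δ x)‖ *
          ‖(A (W0 φ x.1))⁻¹‖
        ≤ (C1 * x.1 ^ M0 * Λ x.1) ^ a i * (Cq * x.1 ^ M) * x.1 ^ MA := by
          gcongr
          exact b2.2
      _ = C1 ^ a i * Cq * x.1 ^ (M0 * a i + M + MA) * (Λ x.1 : ℝ) ^ a i := by
          rw [mul_pow, mul_pow, ← pow_mul, pow_add, pow_add]
          ring
  have hT4 : ∀ i, i ∉ Is → Tendsto (fun x =>
      (Complex.exp ((u i).eval (Complex.exp (-ww φ δ x))) * g i (ww φ δ x) *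
        (A (W0 φ x.1))⁻¹) * (Λ x.1 : ℂ) ^ d i / (Λ x.1 : ℂ) ^ D) (FF l0 Z) (𝓝 0) := by
    intro i hi
    rw [tendsto_zero_iff_norm_tendsto_zero]
    have h2 := (tend_fst (Z := Z) hl (pow_exp (show 0 < c / 2 by positivity)
      (M0 * a i + Mg i + MA))).const_mul (C1 ^ a i * 2)
    rw [mul_zero] at h2
    have h3 := (germ_ratio (Z := Z) (φ := φ) hl hδ (hg i)).norm
    rw [norm_one] at h3
    refine tendsto_of_tendsto_of_tendsto_of_le_of_le' tendsto_const_nhds h2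
      (Eventually.of_forall fun _ => norm_nonneg _) ?_
    filter_upwards [h3.eventually (gt_mem_nhds one_lt_two), of_fst (Z := Z) hl (hMg i), hAinv,
      of_fst (Z := Z) hl (eventually_gt_atTop 0), hP1, hsec, of_fst (Z := Z) hl hΛ1]
      with x b1 b2 b3 b4 b5 b6 b7
    have hL0 : (0 : ℝ) < Λ x.1 := by linarith [b7.1]
    have hgpos : 0 < ‖g i (W0 φ x.1)‖ := lt_of_lt_of_le (by positivity) b2.1
    have hgw : ‖g i (ww φ δ x)‖ ≤ 2 * x.1 ^ Mg i := by
      rw [norm_div, div_lt_iff₀ hgpos] at b1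
      refine b1.le.trans ?_
      exact mul_le_mul_of_nonneg_left b2.2 (by norm_num)
    have h4 : Real.exp ((v i).eval (Complex.exp (-ww φ δ x))).re ^ a i ≤
        (C1 * x.1 ^ M0 * Λ x.1) ^ a i * Real.exp (-(c / 2 * x.1)) := by
      have h5 := hnIs i hi _ b6.1
      have h6 : Real.exp ((v i).eval (Complex.exp (-ww φ δ x))).re ≤
          (C1 * x.1 ^ M0 * Λ x.1) * Real.exp (-(c / 2 * x.1)) := by
        calc Real.exp ((v i).eval (Complex.exp (-ww φ δ x))).re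
            ≤ Real.exp (((v s).eval (Complex.exp (-ww φ δ x))).re + -(c / 2 * x.1)) := by
              apply Real.exp_le_exp.2
              have h7 : c * (x.1 / 2) ≤ c * ‖Complex.exp (-ww φ δ x)‖ :=
                mul_le_mul_of_nonneg_left b6.2 hc.le
              linarith
          _ = Real.exp ((v s).eval (Complex.exp (-ww φ δ x))).re * Real.exp (-(c / 2 * x.1)) :=
              Real.exp_add _ _
          _ ≤ _ := by gcongr
      refine (pow_le_pow_left₀ (Real.exp_pos _).le h6 _).trans ?_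
      rw [mul_pow]
      refine mul_le_mul_of_nonneg_left ?_ (by positivity)
      have h8 : Real.exp (-(c / 2 * x.1)) ≤ 1 := by
        rw [Real.exp_le_one_iff]
        have : 0 < c / 2 * x.1 := by positivity
        linarith
      have := pow_le_pow_of_le_one (Real.exp_pos _).le h8 (ha1 i)
      rwa [pow_one] at this
    rw [norm_div, norm_mul, norm_mul, norm_mul, norm_pow, norm_pow, Complex.norm_natCast, hexpu,
      div_le_iff₀ (by positivity)]
    calc Real.exp ((v i).eval (Complex.exp (-ww φ δ x))).re ^ a i * ‖g i (ww φ δ x)‖ *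
          ‖(A (W0 φ x.1))⁻¹‖ * (Λ x.1 : ℝ) ^ d i
        ≤ ((C1 * x.1 ^ M0 * Λ x.1) ^ a i * Real.exp (-(c / 2 * x.1))) * (2 * x.1 ^ Mg i) *
          x.1 ^ MA * (Λ x.1 : ℝ) ^ d i := by
          gcongr
          exact b3.2
      _ = C1 ^ a i * 2 * (x.1 ^ (M0 * a i + Mg i + MA) * Real.exp (-(c / 2 * x.1))) *
          ((Λ x.1 : ℝ) ^ a i * (Λ x.1 : ℝ) ^ d i) := by
          rw [mul_pow, mul_pow, ← pow_mul, pow_add, pow_add]
          ring
      _ = C1 ^ a i * 2 * (x.1 ^ (M0 * a i + Mg i + MA) * Real.exp (-(c / 2 * x.1))) *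
          (Λ x.1 : ℝ) ^ D := by rw [← pow_add, had]
  have hT3 : ∀ i ∈ Is, Tendsto (fun x =>
      (Complex.exp ((u i).eval (Complex.exp (-ww φ δ x))) * g i (ww φ δ x) *
        (A (W0 φ x.1))⁻¹) * (Λ x.1 : ℂ) ^ d i / (Λ x.1 : ℂ) ^ D -
        cc i * Complex.exp (μ * x.2) ^ a i) (FF l0 Z) (𝓝 0) := by
    intro i hi
    have hX : Tendsto (fun x : ℝ × ℂ => cf i x.1 * (((Λ x.1 : ℝ) / t x.1 : ℝ) : ℂ)⁻¹ ^ a i *
        (g i (ww φ δ x) / g i (W0 φ x.1))) (FF l0 Z) (𝓝 (cc i)) := by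
      have k1 : Tendsto (fun x : ℝ × ℂ => cf i x.1) (FF l0 Z) (𝓝 (cc i)) :=
        (hcc i hi).comp tendsto_fst
      have k2 : Tendsto (fun x : ℝ × ℂ => (((Λ x.1 : ℝ) / t x.1 : ℝ) : ℂ)) (FF l0 Z) (𝓝 ((1 : ℝ) : ℂ)) :=
        (Complex.continuous_ofReal.tendsto _).comp (tend_fst hl hΛt)
      have k3 := (k2.inv₀ (by simp)).pow (a i)
      have k4 := (k1.mul k3).mul (germ_ratio (Z := Z) (φ := φ) hl hδ (hg i))
      simp only [Complex.ofReal_one, inv_one, one_pow, mul_one] at k4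
      exact k4
    have hYb : ∀ᶠ x in FF l0 Z, ‖Complex.exp (μ * x.2) ^ a i‖ ≤ Real.exp (‖μ‖ * Z) ^ a i := by
      filter_upwards [ev_snd (l := l0) (Z := Z)] with x b1
      rw [norm_pow, Complex.norm_exp]
      refine pow_le_pow_left₀ (Real.exp_pos _).le (Real.exp_le_exp.2 ?_) _
      refine (Complex.re_le_norm _).trans ?_
      rw [norm_mul]
      gcongr
    have hY : Tendsto (fun x : ℝ × ℂ => Complex.exp ((u i).eval (Complex.exp (-ww φ δ x)) -
        (u i).eval ((x.1 : ℂ) * e)) - Complex.exp (μ * x.2) ^ a i) (FF l0 Z) (𝓝 0) := by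
      have k1 := (Complex.continuous_exp.tendsto _).comp (hvt.const_mul (a i : ℂ))
      rw [mul_zero, Complex.exp_zero] at k1
      have k2 := k1.sub_const 1
      rw [sub_self] at k2
      refine (small_mul k2 hYb).congr fun x => ?_
      simp only [Function.comp]
      rw [huv, huv, hIsm i hi, ← Complex.exp_nat_mul, sub_mul, one_mul, ← Complex.exp_add]
      congr 2
      ring
    have h2 : Tendsto (fun x : ℝ × ℂ => cf i x.1 * (((Λ x.1 : ℝ) / t x.1 : ℝ) : ℂ)⁻¹ ^ a i *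
        (g i (ww φ δ x) / g i (W0 φ x.1)) - cc i) (FF l0 Z) (𝓝 0) := by
      have := hX.sub_const (cc i)
      rwa [sub_self] at this
    have h3 := (small_mul h2 hYb).add (hX.mul hY)
    rw [mul_zero, add_zero] at h3
    refine h3.congr' ?_
    filter_upwards [of_fst (Z := Z) hl (hMg i), hAinv, of_fst (Z := Z) hl (eventually_gt_atTop 0),
      of_fst (Z := Z) hl hΛ1, of_fst (Z := Z) hl htpos] with x b1 b2 b3 b4 b5
    have hg0 : g i (W0 φ x.1) ≠ 0 := norm_pos_iff.1 (lt_of_lt_of_le (by positivity) b1.1)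
    have hA0 := b2.1
    have hL0 : (Λ x.1 : ℂ) ≠ 0 := by
      have : (0 : ℝ) < Λ x.1 := by linarith [b4.1]
      exact_mod_cast this.ne'
    have ht0 : (t x.1 : ℂ) ≠ 0 := by exact_mod_cast b5.ne'
    have hex : Complex.exp ((u i).eval ((x.1 : ℂ) * e)) ≠ 0 := Complex.exp_ne_zero _
    have hDd : (Λ x.1 : ℂ) ^ D = (Λ x.1 : ℂ) ^ a i * (Λ x.1 : ℂ) ^ d i := by rw [← pow_add, had]
    rw [Complex.exp_sub, hDd]
    simp only [hcf]
    push_cast
    rw [inv_div, div_pow]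
    have hL1 := pow_ne_zero (a i) hL0
    have hL2 := pow_ne_zero (d i) hL0
    have ht1 := pow_ne_zero (a i) ht0
    field_simp
    ring
  -- the normalised function
  set G : ℝ × ℂ → ℂ := fun x => ((Λ x.1 : ℂ) ^ D * A (ww φ δ x) +
    ∑ n ∈ Finset.range D, (Λ x.1 : ℂ) ^ n * q0 n (ww φ δ x) +
    ∑ i, Complex.exp ((u i).eval (Complex.exp (-ww φ δ x))) *
      ((Λ x.1 : ℂ) ^ d i * g i (ww φ δ x) +
        ∑ n ∈ Finset.range (d i), (Λ x.1 : ℂ) ^ n * q i n (ww φ δ x))) /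
    ((Λ x.1 : ℂ) ^ D * A (W0 φ x.1)) with hG
  have hGt : Tendsto (fun x => G x - p.eval (Complex.exp (μ * x.2))) (FF l0 Z) (𝓝 0) := by
    have k0 := hRA.sub_const 1
    rw [sub_self] at k0
    have k1 := tendsto_finsetSum (Finset.range D) hT1
    have k2 : ∀ i ∈ (Finset.univ : Finset ι), Tendsto (fun x =>
        ((Complex.exp ((u i).eval (Complex.exp (-ww φ δ x))) * g i (ww φ δ x) *
          (A (W0 φ x.1))⁻¹) * (Λ x.1 : ℂ) ^ d i / (Λ x.1 : ℂ) ^ D -
          (if i ∈ Is then cc i * Complex.exp (μ * x.2) ^ a i else 0)) +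
        ∑ n ∈ Finset.range (d i), (Complex.exp ((u i).eval (Complex.exp (-ww φ δ x))) *
          q i n (ww φ δ x) * (A (W0 φ x.1))⁻¹) * (Λ x.1 : ℂ) ^ n / (Λ x.1 : ℂ) ^ D)
        (FF l0 Z) (𝓝 0) := by
      intro i _
      have k3 := tendsto_finsetSum (Finset.range (d i)) (hT5 i)
      rw [Finset.sum_const_zero] at k3
      by_cases hi : i ∈ Is
      · have := (hT3 i hi).add k3
        rw [add_zero] at this
        simpa only [if_pos hi] using this
      · have := (hT4 i hi).add k3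
        rw [add_zero] at this
        simpa only [if_neg hi, sub_zero] using this
    have k4 := tendsto_finsetSum Finset.univ k2
    rw [Finset.sum_const_zero] at k1 k4
    have k5 := (k0.add k1).add k4
    rw [add_zero, add_zero] at k5
    refine k5.congr' ?_
    filter_upwards [hAinv, of_fst (Z := Z) hl hΛ1] with x b1 b2
    have hA0 := b1.1
    have hL0 : (Λ x.1 : ℂ) ≠ 0 := by
      have : (0 : ℝ) < Λ x.1 := by linarith [b2.1]
      exact_mod_cast this.ne'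
    have hLD := pow_ne_zero D hL0
    simp only [hG]
    rw [hpe, Finset.sum_add_distrib, Finset.sum_sub_distrib, Finset.sum_ite_mem, Finset.univ_inter,
      add_div, add_div, Finset.sum_div, Finset.sum_div]
    have e1 : (Λ x.1 : ℂ) ^ D * A (ww φ δ x) / ((Λ x.1 : ℂ) ^ D * A (W0 φ x.1)) =
        A (ww φ δ x) / A (W0 φ x.1) := mul_div_mul_left _ _ hLD
    have e2 : ∀ n, (Λ x.1 : ℂ) ^ n * q0 n (ww φ δ x) / ((Λ x.1 : ℂ) ^ D * A (W0 φ x.1)) =
        (q0 n (ww φ δ x) * (A (W0 φ x.1))⁻¹) * (Λ x.1 : ℂ) ^ n / (Λ x.1 : ℂ) ^ D := by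
      intro n
      field_simp
    have e3 : ∀ i, Complex.exp ((u i).eval (Complex.exp (-ww φ δ x))) *
        ((Λ x.1 : ℂ) ^ d i * g i (ww φ δ x) +
        ∑ n ∈ Finset.range (d i), (Λ x.1 : ℂ) ^ n * q i n (ww φ δ x)) /
        ((Λ x.1 : ℂ) ^ D * A (W0 φ x.1)) =
        (Complex.exp ((u i).eval (Complex.exp (-ww φ δ x))) * g i (ww φ δ x) *
          (A (W0 φ x.1))⁻¹) * (Λ x.1 : ℂ) ^ d i / (Λ x.1 : ℂ) ^ D +
        ∑ n ∈ Finset.range (d i), (Complex.exp ((u i).eval (Complex.exp (-ww φ δ x))) *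
          q i n (ww φ δ x) * (A (W0 φ x.1))⁻¹) * (Λ x.1 : ℂ) ^ n / (Λ x.1 : ℂ) ^ D := by
      intro i
      rw [mul_add, Finset.mul_sum, add_div, Finset.sum_div]
      congr 1
      · field_simp
      · refine Finset.sum_congr rfl fun n _ => ?_
        field_simp
    rw [e1, Finset.sum_congr rfl fun n _ => e2 n, Finset.sum_congr rfl fun i _ => e3 i,
      Finset.sum_add_distrib]
    ring
  -- the end
  have hev : ∀ᶠ x in FF l0 Z, ‖G x - p.eval (Complex.exp (μ * x.2))‖ < m ∧ (ww φ δ x).re < c0 ∧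
      (1 : ℝ) ≤ Λ x.1 ∧ A (W0 φ x.1) ≠ 0 := by
    have k1 := hGt.norm
    rw [norm_zero] at k1
    have k2 : ∀ᶠ x in FF l0 Z, (ww φ δ x).re < c0 :=
      (tendsto_comap_iff.1 (ww_tend (Z := Z) (φ := φ) hl hδ)).eventually (eventually_lt_atBot c0)
    filter_upwards [k1.eventually (gt_mem_nhds hm), k2, hAinv, of_fst (Z := Z) hl hΛ1]
      with x b1 b2 b3 b4
    exact ⟨b1, b2, b4.1, b3.1⟩
  unfold FF at hev
  rw [eventually_prod_principal_iff] at hev
  obtain ⟨ρ, hρ⟩ := hev.exists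
  have hLo : IsOpen (LH c0) := isOpen_lt Complex.continuous_re continuous_const
  have hwd : ∀ ζ : ℂ, DifferentiableAt ℂ (fun ζ => ww φ δ (ρ, ζ)) ζ := by
    intro ζ
    change DifferentiableAt ℂ (fun ζ : ℂ => W0 φ ρ + ζ / ((ρ : ℝ) : ℂ) ^ δ) ζ
    exact (differentiableAt_const _).add (differentiableAt_id.div_const _)
  have hcomp : ∀ {B : ℂ → ℂ}, DifferentiableOn ℂ B (LH c0) → ∀ ζ ∈ Metric.closedBall ζ0 r,
      DifferentiableAt ℂ (fun ζ => B (ww φ δ (ρ, ζ))) ζ := by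
    intro B hB ζ hζ
    have h2 : ww φ δ (ρ, ζ) ∈ LH c0 := (hρ ζ (hZin hζ)).2.1
    exact DifferentiableAt.comp ζ (hB.differentiableAt (hLo.mem_nhds h2)) (hwd ζ)
  obtain ⟨ζ, hζ, hζ0⟩ := disc_zero (F := fun ζ => G (ρ, ζ)) (z0 := ζ0) (r := r) (m := m) hr hm
    (by
      intro ζ hζ
      refine DifferentiableAt.differentiableWithinAt ?_
      simp only [hG]
      refine DifferentiableAt.div_const ?_ _
      refine DifferentiableAt.add (DifferentiableAt.add ?_ ?_) ?_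
      · exact (hcomp hAd ζ hζ).const_mul _
      · exact DifferentiableAt.fun_sum fun n _ => (hcomp (hq0 n).1 ζ hζ).const_mul _
      · refine DifferentiableAt.fun_sum fun i _ => ?_
        refine DifferentiableAt.mul ?_ (DifferentiableAt.add ?_ ?_)
        · refine DifferentiableAt.cexp ?_
          exact DifferentiableAt.comp ζ (u i).differentiableAt (hwd ζ).neg.cexp
        · exact (hcomp (hgd i) ζ hζ).const_mul _
        · exact DifferentiableAt.fun_sum fun n _ => (hcomp (hq i n).1 ζ hζ).const_mul _)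
    (by
      intro ζ hζ
      have h2 := (hρ ζ (hZin (Metric.sphere_subset_closedBall hζ))).1
      have h3 := hsph ζ hζ
      simp only at h2
      have h4 := norm_sub_norm_le (p.eval (Complex.exp (μ * ζ))) (G (ρ, ζ))
      rw [norm_sub_rev] at h4
      linarith)
    (by
      have h2 := (hρ ζ0 (hZin (Metric.mem_closedBall_self hr.le))).1
      simp only at h2
      rwa [hz0, sub_zero] at h2)
  obtain ⟨-, b2, b3, b4⟩ := hρ ζ (hZin hζ)
  refine ⟨ww φ δ (ρ, ζ), b2, Λ ρ, ?_⟩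
  have hL0 : (Λ ρ : ℂ) ≠ 0 := by
    have : (0 : ℝ) < Λ ρ := by
      simp only at b3
      linarith
    exact_mod_cast this.ne'
  simp only [hG] at hζ0
  rcases div_eq_zero_iff.1 hζ0 with h2 | h2
  · exact h2
  · exfalso
    rcases mul_eq_zero.1 h2 with h3 | h3
    · exact pow_ne_zero D hL0 h3
    · exact b4 h3

end Q162.MX
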